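import Pool.Agent.TH304.J893
import Pool.Agent.Y226.FK.Est

/-!
The asymptotic behaviour of the sums of the logarithmic Mahler measures.
-/

noncomputable section

namespace Pool.Agent.X175.Tor

open Finset Polynomial Filter Topology Pool.Agent.Helper993.HeisDet Pool.Agent.TH304.J893
  Pool.Agent.Y226.FK

theorem eP_prim {g d : ℕ} (hg : 0 < g) {ζ : ℂ} (hζ : IsPrimitiveRoot ζ g) (M η : ℂ) :
    eP (g * d) M η ζ
      = (1 - X ^ 2) ^ (g * d) + C (M ^ (g * d) * (1 - η ^ g) ^ d) * X ^ (g * d) := by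
  unfold eP
  rw [prod_mul_distrib, prod_const, card_range, prod_blocks hg hζ]

/-- The value of one block. -/
theorem log_eP {g d : ℕ} (hg : 0 < g) (hd : 0 < d) {M : ℂ} (hM : ‖M‖ = 16) (hgd : 2 * d ≤ 8 ^ g)
    {ζ η : ℂ} (hζ : IsPrimitiveRoot ζ g) (hη : η ^ (g * d) = 1) (hη1 : η ^ g ≠ 1) :
    |(eP (g * d) M η ζ).logMahlerMeasure - (g * d : ℕ) * Real.log 16|
      ≤ d * (Real.log (g * d : ℕ) + 2) := by
  set w := η ^ g with hw
  have hwd : w ^ d = 1 := by rw [hw, ← pow_mul]; exact hη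
  have hdR : (0 : ℝ) < d := by exact_mod_cast hd
  have hd1 : (1 : ℝ) ≤ d := by exact_mod_cast hd
  have h1 := norm_one_sub_ge hwd hη1 hd
  have hwn : ‖w‖ = 1 := Complex.norm_eq_one_of_pow_eq_one hwd hd.ne'
  have h2 : ‖1 - w‖ ≤ 2 := by
    have := norm_sub_le 1 w
    rw [norm_one, hwn] at this
    linarith
  have h0 : 0 < ‖1 - w‖ := lt_of_lt_of_le (by positivity) h1
  rw [eP_prim hg hζ]
  set c : ℂ := M ^ (g * d) * (1 - w) ^ d with hc
  have hcn : ‖c‖ = (16 : ℝ) ^ (g * d) * ‖1 - w‖ ^ d := by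
    rw [hc, norm_mul, norm_pow, norm_pow, hM]
  have hc2 : 2 * (2 : ℝ) ^ (g * d) ≤ ‖c‖ := by
    have h3 : (2 : ℝ) ≤ (8 : ℝ) ^ g * ‖1 - w‖ := by
      have h4 : (2 * d : ℝ) ≤ (8 : ℝ) ^ g := by exact_mod_cast hgd
      calc (2 : ℝ) = 2 * d * (1 / d) := by field_simp
        _ ≤ (8 : ℝ) ^ g * ‖1 - w‖ := mul_le_mul h4 h1 (by positivity) (by positivity)
    have h5 : ‖c‖ = (2 : ℝ) ^ (g * d) * ((8 : ℝ) ^ g * ‖1 - w‖) ^ d := by
      rw [hcn, mul_pow, ← pow_mul, ← mul_assoc, ← mul_pow]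
      norm_num
    rw [h5, mul_comm]
    refine mul_le_mul_of_nonneg_left ?_ (by positivity)
    calc (2 : ℝ) ≤ (8 : ℝ) ^ g * ‖1 - w‖ := h3
      _ = ((8 : ℝ) ^ g * ‖1 - w‖) ^ 1 := (pow_one _).symm
      _ ≤ _ := pow_le_pow_right₀ (by linarith) hd
  have hpow1 : (1 : ℝ) ≤ 2 ^ (g * d) := one_le_pow₀ (by norm_num)
  have hc0 : 0 < ‖c‖ := by linarith
  have hev : ∀ z : ℂ, ‖z‖ = 1 → |‖((1 - X ^ 2) ^ (g * d) + C c * X ^ (g * d) :
      Polynomial ℂ).eval z‖ - ‖c‖| ≤ (2 : ℝ) ^ (g * d) := by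
    intro z hz
    simp only [eval_add, eval_pow, eval_sub, eval_one, eval_X, eval_mul, eval_C]
    have e1 : ‖(1 - z ^ 2) ^ (g * d)‖ ≤ 2 ^ (g * d) := by
      rw [norm_pow]
      apply pow_le_pow_left₀ (norm_nonneg _)
      calc ‖1 - z ^ 2‖ ≤ ‖(1:ℂ)‖ + ‖z ^ 2‖ := norm_sub_le _ _
        _ = 2 := by rw [norm_pow, hz]; norm_num
    have e2 : ‖c * z ^ (g * d)‖ = ‖c‖ := by
      rw [norm_mul, norm_pow, hz, one_pow, mul_one]
    rw [← e2]
    refine (abs_norm_sub_norm_le _ _).trans ?_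
    rw [add_sub_cancel_right]
    exact e1
  have hup : ((1 - X ^ 2) ^ (g * d) + C c * X ^ (g * d) : Polynomial ℂ).logMahlerMeasure
      ≤ Real.log (2 * ‖c‖) := by
    refine logM_le _ (by linarith) fun z hz => ?_
    have := (abs_le.mp (hev z hz)).2
    linarith
  have hlo : Real.log (‖c‖ / 2) ≤
      ((1 - X ^ 2) ^ (g * d) + C c * X ^ (g * d) : Polynomial ℂ).logMahlerMeasure := by
    refine le_logM _ (by linarith) fun z hz => ?_
    have := (abs_le.mp (hev z hz)).1
    linarith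
  rw [Real.log_mul two_ne_zero hc0.ne'] at hup
  rw [Real.log_div hc0.ne' two_ne_zero] at hlo
  have h7 : Real.log ‖c‖ = (g * d : ℕ) * Real.log 16 + d * Real.log ‖1 - w‖ := by
    rw [hcn, Real.log_mul (by positivity) (by positivity), Real.log_pow, Real.log_pow]
  have h8 : Real.log ‖1 - w‖ ≤ Real.log 2 := Real.log_le_log h0 h2
  have h9 : -Real.log d ≤ Real.log ‖1 - w‖ := by
    have := Real.log_le_log (by positivity) h1
    rw [one_div, Real.log_inv] at this
    exact this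
  have h10 : Real.log d ≤ Real.log (g * d : ℕ) := by
    refine Real.log_le_log hdR ?_
    exact_mod_cast Nat.le_mul_of_pos_left d hg
  have h11 : 0 ≤ Real.log d := Real.log_nonneg hd1
  have hl2 : Real.log 2 < 0.6931471808 := Real.log_two_lt_d9
  have hl2' : 0 < Real.log 2 := Real.log_pos (by norm_num)
  rw [abs_le]
  constructor
  · have h12 : d * -Real.log (g * d : ℕ) ≤ d * Real.log ‖1 - w‖ :=
      mul_le_mul_of_nonneg_left (by linarith) hdR.le
    nlinarith
  · have h12 : d * Real.log ‖1 - w‖ ≤ d * Real.log 2 := mul_le_mul_of_nonneg_left h8 hdR.le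
    have h13 : 0 ≤ d * Real.log (g * d : ℕ) := mul_nonneg hdR.le (by linarith)
    nlinarith

/-- The part which belongs to the primitive roots of unity of order `g`. -/
def SP (k g : ℕ) (M : ℂ) : ℝ :=
  ∑ η ∈ nthRootsFinset k (1 : ℂ), ∑ ζ ∈ primitiveRoots g ℂ, (eP k M η ζ).logMahlerMeasure

theorem S_split {k : ℕ} (M : ℂ) : S k k k M = ∑ g ∈ k.divisors, SP k g M := by
  unfold S SP
  rw [sum_comm (s := k.divisors)]
  refine sum_congr rfl fun η _ => ?_
  rw [IsPrimitiveRoot.nthRoots_one_eq_biUnion_primitiveRoots, sum_biUnion]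
  intro i _ j _ hij
  exact IsPrimitiveRoot.disjoint hij

theorem SP_nonneg {k : ℕ} (hk : 0 < k) (g : ℕ) (M : ℂ) : 0 ≤ SP k g M :=
  sum_nonneg fun η _ => sum_nonneg fun ζ _ => logMahler_eP_nonneg hk M η ζ

theorem SP_le {k : ℕ} (hk : 0 < k) {g : ℕ} (hg : 0 < g) {M : ℂ} (hM : ‖M‖ = 16) :
    SP k g M ≤ g.totient * (k * (k * Real.log 34)) := by
  unfold SP
  have h1 : ∀ η ∈ nthRootsFinset k (1 : ℂ), ∑ ζ ∈ primitiveRoots g ℂ,
      (eP k M η ζ).logMahlerMeasure ≤ g.totient * (k * Real.log 34) := by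
    intro η hη
    calc _ ≤ ∑ _ζ ∈ primitiveRoots g ℂ, (k : ℝ) * Real.log 34 := by
          refine sum_le_sum fun ζ hζ => ?_
          rw [mem_primitiveRoots hg] at hζ
          have := logM_eP_le hk M (norm_eq_one_of_mem hk hη)
            (Complex.norm_eq_one_of_pow_eq_one hζ.pow_eq_one hg.ne')
          rw [hM] at this
          norm_num at this
          exact this
      _ = _ := by rw [sum_const, card_prim hg, nsmul_eq_mul]
  refine (sum_le_sum h1).trans (le_of_eq ?_)
  rw [sum_const, card_nthRoots hk, nsmul_eq_mul]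
  ring

/-- The main estimate for one order. -/
theorem main_S {k g : ℕ} (hk0 : 0 < k) (hgk : g ∣ k) {M : ℂ} (hM : ‖M‖ = 16) :
    |SP k g M - g.totient * (((k : ℝ) - g) * (k * Real.log 16))| ≤
      2 * Real.log 34 * ((k : ℝ) ^ 2 * (Real.log k + 2)) := by
  have hg : 0 < g := Nat.pos_of_dvd_of_pos hgk hk0
  obtain ⟨d, hd⟩ := id hgk
  have hd0 : 0 < d := by
    rcases Nat.eq_zero_or_pos d with h | h
    · rw [h, mul_zero] at hd; omega
    · exact h
  have hkR : (1 : ℝ) ≤ k := by exact_mod_cast hk0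
  have hgR : (1 : ℝ) ≤ g := by exact_mod_cast hg
  have hdR : (1 : ℝ) ≤ d := by exact_mod_cast hd0
  have hkgd : (k : ℝ) = g * d := by exact_mod_cast hd
  have hlogk : 0 ≤ Real.log k := Real.log_nonneg hkR
  have hlN : 0 ≤ Real.log 16 := Real.log_nonneg (by norm_num)
  have hl34 : Real.log 2 ≤ Real.log 34 := Real.log_le_log (by norm_num) (by norm_num)
  have hlog2 := Real.log_two_gt_d9
  have hC : 1 ≤ 2 * Real.log 34 := by linarith
  have hphi : (g.totient : ℝ) ≤ g := by exact_mod_cast Nat.totient_le g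
  have hphi0 : (0 : ℝ) ≤ g.totient := Nat.cast_nonneg _
  by_cases hcase : 2 * d ≤ 8 ^ g
  · -- large orders
    have hm : (g.totient : ℝ) * (((k : ℝ) - g) * (k * Real.log 16)) =
        ∑ η ∈ nthRootsFinset k (1 : ℂ), ∑ _ζ ∈ primitiveRoots g ℂ,
          (if η ^ g = 1 then (0 : ℝ) else k * Real.log 16) := by
      rw [← sum_main hk0 hgk, mul_sum]
      refine sum_congr rfl fun η _ => ?_
      rw [sum_const, card_prim hg, nsmul_eq_mul]
    unfold SP
    rw [hm, ← sum_sub_distrib]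
    have h1 : ∀ η ∈ nthRootsFinset k (1 : ℂ), |∑ ζ ∈ primitiveRoots g ℂ,
        (eP k M η ζ).logMahlerMeasure -
        ∑ _ζ ∈ primitiveRoots g ℂ, (if η ^ g = 1 then (0 : ℝ) else k * Real.log 16)| ≤
        g * (d * (Real.log k + 2)) := by
      intro η hη
      rw [mem_nthRootsFinset hk0] at hη
      rw [← sum_sub_distrib]
      refine (abs_sum_le_sum_abs _ _).trans ?_
      have h2 : ∀ ζ ∈ primitiveRoots g ℂ, |(eP k M η ζ).logMahlerMeasure -
          (if η ^ g = 1 then (0 : ℝ) else k * Real.log 16)| ≤ d * (Real.log k + 2) := by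
        intro ζ hζ
        rw [mem_primitiveRoots hg] at hζ
        split_ifs with h
        · have e : eP k M η ζ = (1 - X ^ 2) ^ k := by
            rw [hd, eP_prim hg hζ, h, sub_self, zero_pow hd0.ne', mul_zero, map_zero, zero_mul,
              add_zero]
          rw [e, logM_one_sub, sub_zero, abs_zero]
          positivity
        · have h3 := log_eP hg hd0 hM hcase hζ (by rw [← hd]; exact hη) h
          rw [← hd] at h3
          exact h3
      refine (sum_le_sum h2).trans ?_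
      rw [sum_const, card_prim hg, nsmul_eq_mul]
      exact mul_le_mul_of_nonneg_right hphi (by positivity)
    refine (abs_sum_le_sum_abs _ _).trans ((sum_le_sum h1).trans ?_)
    rw [sum_const, card_nthRoots hk0, nsmul_eq_mul]
    have h4 : (k : ℝ) * (g * (d * (Real.log k + 2))) = 1 * ((k : ℝ) ^ 2 * (Real.log k + 2)) := by
      rw [hkgd]; ring
    rw [h4]
    exact mul_le_mul_of_nonneg_right hC (by positivity)
  · -- small orders
    push Not at hcase
    have h1 : (g : ℝ) ≤ 2 * (Real.log k + 2) := by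
      have h2 : (8 : ℝ) ^ g ≤ 2 * k := by
        have h3 : 8 ^ g ≤ 2 * k := by
          have : d ≤ k := by rw [hd]; exact Nat.le_mul_of_pos_left d hg
          omega
        exact_mod_cast h3
      have h3 : (2 : ℝ) ^ g ≤ 2 * k :=
        (pow_le_pow_left₀ (by norm_num) (by norm_num : (2 : ℝ) ≤ 8) g).trans h2
      have h4 := Real.log_le_log (by positivity) h3
      rw [Real.log_pow, Real.log_mul (by norm_num) (by linarith)] at h4
      have h6 := Real.log_two_lt_d9
      nlinarith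
    have hlog : Real.log 16 ≤ Real.log 34 := Real.log_le_log (by norm_num) (by norm_num)
    have hu := SP_le hk0 hg hM
    have hl := SP_nonneg hk0 g M
    have hkg : (g : ℝ) ≤ k := by exact_mod_cast Nat.le_of_dvd hk0 hgk
    have hm0 : 0 ≤ (g.totient : ℝ) * (((k : ℝ) - g) * (k * Real.log 16)) :=
      mul_nonneg hphi0 (mul_nonneg (by linarith) (by positivity))
    have hlog0 : 0 ≤ Real.log 34 := by linarith
    have hm1 : (g.totient : ℝ) * (((k : ℝ) - g) * (k * Real.log 16)) ≤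
        g.totient * (k * (k * Real.log 34)) := by
      refine mul_le_mul_of_nonneg_left ?_ hphi0
      exact mul_le_mul (by linarith) (mul_le_mul_of_nonneg_left hlog (by linarith))
        (by positivity) (by linarith)
    have hfin : (g.totient : ℝ) * (k * (k * Real.log 34)) ≤
        2 * Real.log 34 * ((k : ℝ) ^ 2 * (Real.log k + 2)) := by
      have h7 : (g.totient : ℝ) * (k * (k * Real.log 34)) ≤
          (2 * (Real.log k + 2)) * (k * (k * Real.log 34)) :=
        mul_le_mul_of_nonneg_right (hphi.trans h1) (by positivity)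
      refine h7.trans (le_of_eq ?_)
      ring
    rw [abs_le]
    constructor <;> linarith

/-- The normalised sum. -/
theorem S_est {k : ℕ} (hk0 : 0 < k) {M : ℂ} (hM : ‖M‖ = 16) :
    |S k k k M / (k : ℝ) ^ 3 - (1 - hh k) * Real.log 16| ≤
      2 * Real.log 34 * (k.divisors.card * ((Real.log k + 2) / k)) := by
  have hkR : (0 : ℝ) < k := by exact_mod_cast hk0
  have hmain : ∑ g ∈ k.divisors, (g.totient : ℝ) * (((k : ℝ) - g) * (k * Real.log 16)) =
      (k : ℝ) ^ 3 * ((1 - hh k) * Real.log 16) := by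
    have h1 : ∑ g ∈ k.divisors, (g.totient : ℝ) = k := by
      exact_mod_cast Nat.sum_totient k
    have h2 : ∑ g ∈ k.divisors, (g.totient : ℝ) * (((k : ℝ) - g) * (k * Real.log 16)) =
        k * (k * Real.log 16) * ∑ g ∈ k.divisors, (g.totient : ℝ) -
          (k * Real.log 16) * ∑ g ∈ k.divisors, (g : ℝ) * (g.totient : ℝ) := by
      rw [mul_sum, mul_sum, ← sum_sub_distrib]
      exact sum_congr rfl fun g _ => by ring
    rw [h2, h1]
    unfold hh
    field_simp
  have h3 : |S k k k M - (k : ℝ) ^ 3 * ((1 - hh k) * Real.log 16)| ≤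
      k.divisors.card * (2 * Real.log 34 * ((k : ℝ) ^ 2 * (Real.log k + 2))) := by
    rw [S_split, ← hmain, ← sum_sub_distrib]
    refine (abs_sum_le_sum_abs _ _).trans ((sum_le_sum fun g hg =>
      main_S hk0 (Nat.dvd_of_mem_divisors hg) hM).trans ?_)
    rw [sum_const, nsmul_eq_mul]
  have h4 : S k k k M / (k : ℝ) ^ 3 - (1 - hh k) * Real.log 16 =
      (S k k k M - (k : ℝ) ^ 3 * ((1 - hh k) * Real.log 16)) / (k : ℝ) ^ 3 := by
    field_simp
  rw [h4, abs_div, abs_of_pos (pow_pos hkR 3), div_le_iff₀ (pow_pos hkR 3)]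
  refine h3.trans (le_of_eq ?_)
  field_simp

/-- The limit. -/
theorem tendsto_S {P : ℝ} {k : ℕ → ℕ} (hodd : ∀ i, 0 < k i) (h3 : ∀ i, 3 ^ i ≤ k i)
    (hcard : ∀ i, (k i).divisors.card = 2 ^ i) (hlim : Tendsto (fun i => hh (k i)) atTop (𝓝 P))
    {M : ℂ} (hM : ‖M‖ = 16) :
    Tendsto (fun i => S (k i) (k i) (k i) M / ((k i : ℕ) : ℝ) ^ 3) atTop
      (𝓝 ((1 - P) * Real.log 16)) := by
  have hl34 : 0 ≤ Real.log 34 := Real.log_nonneg (by norm_num)
  have h1 : Tendsto (fun i => (1 - hh (k i)) * Real.log 16) atTop (𝓝 ((1 - P) * Real.log 16)) :=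
    (tendsto_const_nhds.sub hlim).mul_const _
  have herr : Tendsto (fun i : ℕ => 2 * Real.log 34 * ((2 * (i : ℝ) + 2) * (2 / 3) ^ i))
      atTop (𝓝 0) := by
    have h2 : Tendsto (fun i : ℕ => (i : ℝ) * (2 / 3 : ℝ) ^ i) atTop (𝓝 0) :=
      tendsto_self_mul_const_pow_of_lt_one (by norm_num) (by norm_num)
    have h4 : Tendsto (fun i : ℕ => (2 / 3 : ℝ) ^ i) atTop (𝓝 0) :=
      tendsto_pow_atTop_nhds_zero_of_lt_one (by norm_num) (by norm_num)
    have h5 := ((h2.const_mul 2).add (h4.const_mul 2)).const_mul (2 * Real.log 34)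
    simp only [mul_zero, add_zero] at h5
    refine h5.congr fun i => ?_
    ring
  have hdiff : Tendsto (fun i => S (k i) (k i) (k i) M / ((k i : ℕ) : ℝ) ^ 3 -
      (1 - hh (k i)) * Real.log 16) atTop (𝓝 0) := by
    refine squeeze_zero_norm (fun i => ?_) herr
    rw [Real.norm_eq_abs]
    refine (S_est (hodd i) hM).trans (mul_le_mul_of_nonneg_left ?_ (by linarith))
    rw [hcard i]
    have h3i : (3 : ℝ) ^ i ≤ (k i : ℝ) := by exact_mod_cast h3 i
    have h31 : (1 : ℝ) ≤ 3 ^ i := one_le_pow₀ (by norm_num)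
    have h6 := log_div_anti h31 h3i
    have h7 : (Real.log ((3 : ℝ) ^ i) + 2) / 3 ^ i ≤ (2 * i + 2) / 3 ^ i := by
      refine div_le_div_of_nonneg_right ?_ (by positivity)
      rw [Real.log_pow]
      have h8 : Real.log 3 ≤ 2 := by
        have := Real.log_le_sub_one_of_pos (show (0 : ℝ) < 3 by norm_num)
        linarith
      have h9 : (0 : ℝ) ≤ i := Nat.cast_nonneg i
      nlinarith
    calc ((2 ^ i : ℕ) : ℝ) * ((Real.log (k i) + 2) / (k i))
        ≤ (2 : ℝ) ^ i * ((2 * i + 2) / 3 ^ i) := by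
          push_cast
          exact mul_le_mul_of_nonneg_left (h6.trans h7) (by positivity)
      _ = (2 * (i : ℝ) + 2) * (2 / 3) ^ i := by
          rw [div_pow]
          ring
  have h10 := hdiff.add h1
  rw [zero_add] at h10
  refine h10.congr fun i => ?_
  ring

end Pool.Agent.X175.Tor
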