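import Pool.Agent.X175.Tor.Gen
import Pool.Agent.X175.Tor.Lim

/-!
The chains in `Heis × ℤ` and the limits of the torsions.
-/

noncomputable section

namespace Pool.Agent.X175.Tor

open Filter Topology
open Pool.Agent.TH630.Tor (HZ X3 prZ f8' f8'_rel φ9 φ9_rel fkDet_pos_finite acyclic_X3)
open Pool.Agent.Helper993.FK Pool.Agent.Helper993.HeisDet
  Pool.Agent.TH304.J893 Pool.Agent.Y226.FK

/-- the levels of a chain of congruence subgroups -/
def levS (s : Sq) (i : ℕ) : Lev where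
  K := ch s i
  nrm := ch_normal s i
  n := s.k i
  k := s.k i
  hn := s.pos i
  hk := s.pos i
  fin := ch_finite s i
  det c := det_gmat' (ch s i) dvd_rfl dvd_rfl rfl (s.odd i) c
  card := ch_card s i

/-- The normal chain in `Heis × ℤ`: the whole group, and then the subgroups `Γ_i × 1`. -/
def chS (s : Sq) (i : ℕ) : Subgroup HZ := if i = 0 then ⊤ else (ch s i).prod ⊥

theorem chS_zero (s : Sq) : chS s 0 = ⊤ := rfl

theorem chS_eq (s : Sq) {i : ℕ} (hi : 1 ≤ i) : chS s i = (ch s i).prod ⊥ := by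
  unfold chS
  rw [if_neg (by omega)]

instance chS_normal (s : Sq) (i : ℕ) : (chS s i).Normal := by
  unfold chS
  split_ifs
  · infer_instance
  · exact Subgroup.prod_normal _ _

theorem chS_anti (s : Sq) : Antitone (chS s) := by
  intro i j hij g hg
  rcases Nat.eq_zero_or_pos i with rfl | hi
  · rw [chS_zero]; exact Subgroup.mem_top g
  · rw [chS_eq s (by omega), Subgroup.mem_prod] at hg ⊢
    exact ⟨ch_anti s hij hg.1, hg.2⟩

theorem chS_inf (s : Sq) : ⨅ i, chS s i = ⊥ := by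
  rw [eq_bot_iff]
  intro g hg
  rw [Subgroup.mem_iInf] at hg
  have h0 : ∀ i : ℕ, g ∈ (ch s (i + 1)).prod (⊥ : Subgroup (Multiplicative ℤ)) := fun i => by
    rw [← chS_eq s (by omega)]
    exact hg (i + 1)
  have h1 : g.2 = 1 := Subgroup.mem_bot.mp (Subgroup.mem_prod.mp (h0 0)).2
  have h2 : g.1 ∈ ⨅ i, ch s i := by
    rw [Subgroup.mem_iInf]
    intro i
    exact ch_anti s (Nat.le_succ i) (Subgroup.mem_prod.mp (h0 i)).1
  rw [ch_inf, Subgroup.mem_bot] at h2
  exact Subgroup.mem_bot.mpr (Prod.ext h2 h1)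

theorem level_chS (s : Sq) {i : ℕ} (hi : 1 ≤ i) :
    (X3.toCx.quot (chS s i)).DetL2Acyclic ∧
      (X3.toCx.quot (chS s i)).l2torsion = torV (levS s i) :=
  level_X3 (levS s i) (chS s i) (chS_eq s hi)

theorem torV_levS (s : Sq) (i : ℕ) : torV (levS s i)
    = -(S (s.k i) (s.k i) (s.k i) (-16) / ((s.k i : ℕ) : ℝ) ^ 3
      + S (s.k i) (s.k i) (s.k i) 16 / ((s.k i : ℕ) : ℝ) ^ 3) := by
  have h : (Nat.card (Heis ℤ ⧸ (levS s i).K) : ℝ) = ((s.k i : ℕ) : ℝ) ^ 3 := by
    have := ch_card s i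
    change (Nat.card (Heis ℤ ⧸ ch s i) : ℝ) = _
    rw [this]
    push_cast
    ring
  unfold torV
  rw [h, add_div]
  rfl

theorem pos_chS (s : Sq) (i n : ℕ) : 0 < fkDet ((X3.toCx.quot (chS s i)).laplacian n) := by
  rcases Nat.eq_zero_or_pos i with rfl | hi
  · rw [Pool.Agent.TH630.Tor.FreeCx.laplacian_eq]
    have : Finite (HZ ⧸ chS s 0) := by
      rw [chS_zero]
      infer_instance
    exact fkDet_pos_finite _
  · exact ((level_chS s hi).1 n).2

/-- Every number in `[-2 log 16, 0)` is the limit of the values `torV`. -/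
theorem exists_torV {c : ℝ} (h1 : -(2 * Real.log 16) ≤ c) (h0 : c < 0) :
    ∃ s : Sq, Tendsto (fun i => torV (levS s i)) atTop (𝓝 c) := by
  have hlog : 0 < Real.log 16 := Real.log_pos (by norm_num)
  set P : ℝ := 1 + c / (2 * Real.log 16) with hP
  have hP0 : 0 ≤ P := by
    have : -1 ≤ c / (2 * Real.log 16) := by
      rw [le_div_iff₀ (by positivity)]
      linarith
    rw [hP]; linarith
  have hP1 : P < 1 := by
    have : c / (2 * Real.log 16) < 0 := div_neg_of_neg_of_pos h0 (by positivity)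
    rw [hP]; linarith
  obtain ⟨k, h0, hpos, hodd, hdvd, h3, hcard, hmono, hlim⟩ := exists_seq P hP0 hP1
  let s : Sq := ⟨k, h0, hpos, hodd, hdvd, hmono⟩
  refine ⟨s, ?_⟩
  have e1 := tendsto_S hpos h3 hcard hlim (M := -16) (by norm_num)
  have e2 := tendsto_S hpos h3 hcard hlim (M := 16) (by norm_num)
  have e3 := (e1.add e2).neg
  have h5 : -((1 - P) * Real.log 16 + (1 - P) * Real.log 16) = c := by
    rw [hP]
    field_simp
    ring
  rw [h5] at e3
  refine e3.congr fun i => ?_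
  rw [torV_levS]

end Pool.Agent.X175.Tor
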