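import Pool.Agent.X175.Tor.Root
import Pool.Agent.TH630.Tor.Ev2

/-!
Finite levels: determinants over finite quotients of a group which maps to `F × ℤ`.
-/

open scoped InnerProductSpace Topology Matrix

noncomputable section

namespace Pool.Agent.X175.Tor

open Pool.Agent.TH630.Tor Pool.Agent.Helper993.FK MeasureTheory Polynomial Filter
open Pool.Agent.Y226.FK (card_nthRoots)

section
variable {G F : Type} [Group G] [Group F] [Fintype F] [DecidableEq F]
  (Pr : G →* F) (Kp : G →* Multiplicative ℤ) {m : ℕ} (hm : 0 < m)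
  (N : Subgroup G) [N.Normal]
  (hN : ∀ g, g ∈ N ↔ Pr g = 1 ∧ (m : ℤ) ∣ Multiplicative.toAdd (Kp g))

include hm in
theorem root_norm {ζ : ℂ} (h : ζ ∈ nthRootsFinset m (1 : ℂ)) : ‖ζ‖ = 1 :=
  Pool.Agent.Helper993.HeisDet.norm_eq_one_of_mem hm h

include hm hN in
theorem sum_trace_evz (a : MonoidAlgebra ℚ G) :
    ∑ ζ ∈ nthRootsFinset m (1 : ℂ), Matrix.trace (evz Pr Kp (uz ζ) a : Matrix F F ℂ)
      = m * (Fintype.card F *
        (((MonoidAlgebra.mapDomain (QuotientGroup.mk' N) a).coeff 1 : ℚ) : ℂ)) := by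
  classical
  induction a using MonoidAlgebra.induction_linear with
  | zero => simp [MonoidAlgebra.mapDomain]
  | add a b h1 h2 =>
    have e : MonoidAlgebra.mapDomain (QuotientGroup.mk' N) (a + b)
      = MonoidAlgebra.mapDomain (QuotientGroup.mk' N) a
        + MonoidAlgebra.mapDomain (QuotientGroup.mk' N) b := MonoidAlgebra.mapDomain_add _ _ _
    simp only [map_add, Matrix.trace_add, Finset.sum_add_distrib, h1, h2, e,
      MonoidAlgebra.coeff_add, Finsupp.add_apply]
    push_cast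
    ring
  | single g c =>
    have h1 : ∀ ζ ∈ nthRootsFinset m (1 : ℂ),
        Matrix.trace (evz Pr Kp (uz ζ) (MonoidAlgebra.single g c) : Matrix F F ℂ)
        = (if Pr g = 1 then (Fintype.card F : ℂ) * c else 0)
          * ζ ^ (Multiplicative.toAdd (Kp g)) := by
      intro ζ hζ
      have hz : ζ ≠ 0 := by
        rintro rfl
        have := root_norm hm hζ
        simp at this
      exact trace_evz_single Pr Kp hz g c
    rw [Finset.sum_congr rfl h1, ← Finset.mul_sum, sum_zpow_roots hm,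
      MonoidAlgebra.mapDomain_single, MonoidAlgebra.coeff_single, Finsupp.single_apply]
    have h2 : (QuotientGroup.mk' N) g = 1 ↔ Pr g = 1 ∧ (m : ℤ) ∣ Multiplicative.toAdd (Kp g) := by
      rw [← hN g]
      exact QuotientGroup.eq_one_iff g
    by_cases h3 : Pr g = 1
    · by_cases h4 : (m : ℤ) ∣ Multiplicative.toAdd (Kp g)
      · rw [if_pos h3, if_pos h4, if_pos (h2.mpr ⟨h3, h4⟩)]
        ring
      · rw [if_pos h3, if_neg h4, if_neg (fun h => h4 (h2.mp h).2)]
        simp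
    · rw [if_neg h3, if_neg (fun h => h3 (h2.mp h).1)]
      simp

include hm hN in
theorem sum_trace_evM {r : ℕ} (S : Matrix (Fin r) (Fin r) (MonoidAlgebra ℚ G)) :
    ∑ ζ ∈ nthRootsFinset m (1 : ℂ),
      (Matrix.trace (evM Pr Kp (uz ζ) S : Matrix (Fin r × F) (Fin r × F) ℂ)).re
      = m * (Fintype.card F * trc (mq N S)) := by
  have h1 : ∀ ζ : ℂ, Matrix.trace (evM Pr Kp (uz ζ) S : Matrix (Fin r × F) (Fin r × F) ℂ)
      = ∑ i, Matrix.trace (evz Pr Kp (uz ζ) (S i i) : Matrix F F ℂ) := by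
    intro z
    simp only [Matrix.trace, Matrix.diag_apply, evM, Matrix.of_apply, Fintype.sum_prod_type]
  rw [← Complex.re_sum]
  simp_rw [h1]
  rw [Finset.sum_comm]
  have h2 : ∀ i : Fin r, ∑ ζ ∈ nthRootsFinset m (1 : ℂ),
      Matrix.trace (evz Pr Kp (uz ζ) (S i i) : Matrix F F ℂ)
      = (((m : ℝ) * (Fintype.card F * (((mq N S i i).coeff 1 : ℚ) : ℝ)) : ℝ) : ℂ) := by
    intro i
    rw [sum_trace_evz Pr Kp hm N hN]
    push_cast
    rfl
  simp_rw [h2]
  rw [← Complex.ofReal_sum, Complex.ofReal_re, trc, ← Finset.mul_sum, ← Finset.mul_sum]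

variable {r s : ℕ}

include hm hN in
/-- The polynomial version. -/
theorem sum_lam_poly (A : Matrix (Fin r) (Fin s) (MonoidAlgebra ℚ G)) (p : ℝ[X]) :
    ∑ ζ ∈ nthRootsFinset m (1 : ℂ), ∑ j, p.eval (lam Pr Kp A ζ j)
      = m * (Fintype.card F * traceVal unitVec (rMul (mq N (A * adjQ A)))
        (fun x => p.eval x)) := by
  have hS : 0 ≤ rMul (mq N (A * adjQ A)) := by
    rw [mq_mul, mq_adjQ]
    exact rMul_self_nonneg _
  have h1 : ∀ ζ ∈ nthRootsFinset m (1 : ℂ), ∑ j, p.eval (lam Pr Kp A ζ j)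
      = ∑ k ∈ Finset.range (p.natDegree + 1), p.coeff k * (Matrix.trace
        (evM Pr Kp (uz ζ) ((A * adjQ A) ^ k) : Matrix (Fin r × F) (Fin r × F) ℂ)).re := by
    intro ζ hζ
    simp only [Polynomial.eval_eq_sum_range]
    rw [Finset.sum_comm]
    refine Finset.sum_congr rfl fun k _ => ?_
    rw [← Finset.mul_sum, sum_lam_pow Pr Kp A (root_norm hm hζ) k]
  rw [Finset.sum_congr rfl h1, Finset.sum_comm, traceVal_poly _ hS, Finset.mul_sum,
    Finset.mul_sum]
  refine Finset.sum_congr rfl fun k _ => ?_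
  rw [← Finset.mul_sum, sum_trace_evM Pr Kp hm N hN, mq_pow]
  ring

include hm hN in
/-- The sum over the roots of unity of the spectral sums is the spectral trace. -/
theorem sum_lam [Finite (G ⧸ N)] [NeZero r] (B : Matrix (Fin r) (Fin s) (MonoidAlgebra ℤ G))
    (h : ℝ → ℝ) :
    ∑ ζ ∈ nthRootsFinset m (1 : ℂ), ∑ j, h (lam Pr Kp (B.map toQ) ζ j)
      = m * (Fintype.card F * traceVal unitVec (rMul (mq N ((B * adjZ B).map toQ))) h) := by
  classical
  have : Fintype (G ⧸ N) := Fintype.ofFinite _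
  have hS : 0 ≤ rMul (mq N ((B * adjZ B).map toQ)) := by
    rw [mul_adjZ_toQ, mq_mul, mq_adjQ]
    exact rMul_self_nonneg _
  rw [mq_toQ] at hS
  obtain ⟨n, lam', -, -, -, -, htr, -⟩ := fin_package _ hS
  rw [← mq_toQ] at htr
  set V : Finset ℝ := ((nthRootsFinset m (1 : ℂ)).biUnion fun ζ =>
    Finset.univ.image fun j => lam Pr Kp (B.map toQ) ζ j) ∪ Finset.univ.image lam' with hV
  set p : ℝ[X] := Lagrange.interpolate V id h with hp
  have hpv : ∀ x ∈ V, p.eval x = h x := fun x hx =>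
    Lagrange.eval_interpolate_at_node h (Set.injOn_id _) hx
  have h1 := sum_lam_poly Pr Kp hm N hN (B.map toQ) p
  rw [← mul_adjZ_toQ] at h1
  have h2 : ∑ ζ ∈ nthRootsFinset m (1 : ℂ), ∑ j, p.eval (lam Pr Kp (B.map toQ) ζ j)
      = ∑ ζ ∈ nthRootsFinset m (1 : ℂ), ∑ j, h (lam Pr Kp (B.map toQ) ζ j) := by
    refine Finset.sum_congr rfl fun ζ hζ => Finset.sum_congr rfl fun j _ => hpv _ ?_
    rw [hV, Finset.mem_union, Finset.mem_biUnion]
    exact Or.inl ⟨ζ, hζ, Finset.mem_image_of_mem _ (Finset.mem_univ j)⟩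
  have h3 : traceVal unitVec (rMul (mq N ((B * adjZ B).map toQ))) (fun x => p.eval x)
      = traceVal unitVec (rMul (mq N ((B * adjZ B).map toQ))) h := by
    rw [htr, htr]
    refine Finset.sum_congr rfl fun k _ => ?_
    rw [hpv]
    rw [hV, Finset.mem_union]
    exact Or.inr (Finset.mem_image_of_mem _ (Finset.mem_univ k))
  rw [← h2, h1, h3]

/-- Over a finite group the logarithm of the determinant is a finite sum. -/
theorem log_fkDet_fin {Q : Type} [Group Q] [Finite Q] [NeZero r]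
    (B : Matrix (Fin r) (Fin s) (MonoidAlgebra ℤ Q)) :
    Real.log (fkDet (rMul (B.map toQ)))
      = 1 / 2 * traceVal unitVec (rMul ((B * adjZ B).map toQ)) Real.log := by
  classical
  have : Fintype Q := Fintype.ofFinite _
  have hS : 0 ≤ rMul ((B * adjZ B).map toQ) := by
    rw [mul_adjZ_toQ]
    exact rMul_self_nonneg _
  obtain ⟨n, lam', -, hnn, -, -, htr, -⟩ := fin_package _ hS
  have h1 : spectralMeasure unitVec (rMul ((B * adjZ B).map toQ))
      = atomic (1 / (Fintype.card Q : ℝ)) lam' := by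
    unfold spectralMeasure
    apply MeasureTheory.Measure.ext_of_integral_eq_on_compactlySupported
    intro f
    rw [RealRMK.integral_rieszMeasure]
    refine Eq.trans ?_ ((integral_atomic (by positivity) _ f).2).symm
    exact htr f
  have h2 : MeasureTheory.IntegrableOn Real.log (Set.Ioi 0)
      (specMeas unitVec (rMul (B.map toQ))) := by
    unfold specMeas
    rw [adjoint_comp_rMul, ← mul_adjZ_toQ, h1]
    exact (integral_atomic (by positivity) _ _).1.integrableOn
  unfold fkDet detOf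
  rw [if_pos h2, Real.log_exp]
  congr 1
  unfold specMeas
  rw [adjoint_comp_rMul, ← mul_adjZ_toQ, h1, ← integral_indicator measurableSet_Ioi,
    (integral_atomic (by positivity) _ _).2, htr]
  refine Finset.sum_congr rfl fun k _ => ?_
  congr 1
  rcases (hnn k).eq_or_lt with h0 | h0
  · rw [← h0]
    simp
  · rw [Set.indicator_of_mem (Set.mem_Ioi.mpr h0)]

theorem half_logDet (B : Matrix (Fin r) (Fin r) (MonoidAlgebra ℤ G)) :
    1 / 2 * logDet Pr Kp (B * adjZ B) = logDet Pr Kp B := by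
  unfold logDet
  have h6 : Real.circleAverage (fun z =>
      Real.log ‖(evM Pr Kp (uz z) ((B * adjZ B).map toQ) :
        Matrix (Fin r × F) (Fin r × F) ℂ).det‖) 0 1
      = Real.circleAverage (fun z => (2 : ℝ) •
      Real.log ‖(evM Pr Kp (uz z) (B.map toQ) : Matrix (Fin r × F) (Fin r × F) ℂ).det‖) 0 1 := by
    apply Real.circleAverage_congr_sphere
    intro z hz
    have hz1 : ‖z‖ = 1 := by simpa using hz
    simp only [smul_eq_mul]
    rw [det_mul_adj Pr Kp hz1, Real.log_pow]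
    norm_num
  rw [h6, Real.circleAverage_fun_smul]
  simp only [smul_eq_mul]
  ring

end

section
variable {G F : Type} [Group G] [Group F] [Fintype F] [DecidableEq F] [Nonempty F]
  (Pr : G →* F) (Kp : G →* Multiplicative ℤ) (N : ℕ → Subgroup G) [∀ m, (N m).Normal]
  (hN : ∀ m g, g ∈ N m ↔ Pr g = 1 ∧ (m : ℤ) ∣ Multiplicative.toAdd (Kp g))
  (hfin : ∀ m, 0 < m → Finite (G ⧸ N m)) {r : ℕ}

/-- For a square matrix which is not degenerate: the exponents have to be good for a finite set. -/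
theorem exists_set [NeZero r] (B : Matrix (Fin r) (Fin r) (MonoidAlgebra ℤ G))
    (hB : Nondeg Pr Kp B) : ∃ A : Finset ℂ, ∀ u : ℕ → ℕ, Tendsto u atTop atTop →
      (∀ j, 0 < u j) → (∀ α ∈ A, ‖α‖ = 1 → ∀ j, α ^ u j = 1 ∨
      Real.exp (-(1 / ((j : ℝ) + 1) * u j)) ≤ ‖1 - α ^ u j‖) →
      (∀ m g, g ∈ N m ↔ Pr g = 1 ∧ (m : ℤ) ∣ Multiplicative.toAdd (Kp g)) →
      (∀ m, 0 < m → Finite (G ⧸ N m)) →
      Tendsto (fun j => Real.log (fkDet (rMul
        ((B.map (MonoidAlgebra.mapDomainRingHom ℤ (QuotientGroup.mk' (N (u j))))).map toQ))))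
        atTop (𝓝 (logDet Pr Kp B)) := by
  classical
  obtain ⟨p, hp0, hp, h1, -⟩ := exists_poly' Pr Kp (nondeg_mul_adj Pr Kp hB)
  set P := p.map (Int.castRingHom ℂ) with hP
  have hP0 : P ≠ 0 := by
    rw [hP]
    exact (Polynomial.map_ne_zero_iff (RingHom.injective_int _)).mpr hp0
  refine ⟨P.roots.toFinset, fun u hu hu0 hA hN hfin => ?_⟩
  set g : ℂ → ℝ := fun z => ∑ j, Real.log (lam Pr Kp (B.map toQ) z j) with hg
  have hgP : ∀ z : ℂ, ‖z‖ = 1 → P.eval z ≠ 0 → g z = Real.log ‖P.eval z‖ := by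
    intro z hz hz0
    have h2 : ∏ j, lam Pr Kp (B.map toQ) z j = ‖P.eval z‖ := by
      rw [prod_lam Pr Kp (B.map toQ) hz, ← hp z hz, mul_adjZ_toQ]
    have h3 : ∀ j ∈ Finset.univ, lam Pr Kp (B.map toQ) z j ≠ 0 := by
      apply Finset.prod_ne_zero_iff.mp
      rw [h2]
      exact norm_ne_zero_iff.mpr hz0
    rw [hg, ← h2, Real.log_prod h3]
  have h4 := tendsto_avg hP0 g hgP hu hu0 (fun α hα => hA α (Multiset.mem_toFinset.mpr hα))
  have hF : (Fintype.card F : ℝ) ≠ 0 := by exact_mod_cast Fintype.card_ne_zero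
  have h5 := h4.const_mul (1 / 2 * (1 / (Fintype.card F : ℝ)))
  have h6 : 1 / 2 * (1 / (Fintype.card F : ℝ)) * P.logMahlerMeasure = logDet Pr Kp B := by
    rw [← half_logDet, h1]
    ring
  rw [h6] at h5
  refine h5.congr fun j => ?_
  have := hfin (u j) (hu0 j)
  have h7 := sum_lam Pr Kp (hu0 j) (N (u j)) (hN (u j)) B Real.log
  have hj : (u j : ℝ) ≠ 0 := by exact_mod_cast (hu0 j).ne'
  rw [log_fkDet_fin, ← FreeCx.mq_map]
  have h8 : (∑ ζ ∈ nthRootsFinset (u j) (1 : ℂ), g ζ) = u j * (Fintype.card F *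
    traceVal unitVec (rMul (mq (N (u j)) ((B * adjZ B).map toQ))) Real.log) := h7
  rw [h8]
  field_simp

end

end Pool.Agent.X175.Tor
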