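import Pool.Agent.X175.Tor.Chain
import Pool.Agent.X175.Tor.FinL

/-!
Chains of subgroups of finite index in `Heis × ℤ`.
-/

noncomputable section

namespace Pool.Agent.X175.Tor

open Filter Topology
open Pool.Agent.TH630.Tor (HZ X3 prZ FreeCx logDet)
open Pool.Agent.Helper993.FK Pool.Agent.Helper993.HeisDet
  Pool.Agent.TH304.J893 Pool.Agent.Y226.FK

/-- the homomorphism to the finite group -/
def homF (i : Lev) (m : ℕ) : HZ →* FL i × Multiplicative (ZMod m) :=
  (pL i).prod ((Int.castAddHom (ZMod m)).toMultiplicative.comp prZ)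

/-- the subgroup `Γ × m ℤ` -/
def NN (i : Lev) (m : ℕ) : Subgroup HZ := (homF i m).ker

instance (i : Lev) (m : ℕ) : (NN i m).Normal := MonoidHom.normal_ker _

theorem mem_NN (i : Lev) (m : ℕ) (g : HZ) :
    g ∈ NN i m ↔ pL i g = 1 ∧ (m : ℤ) ∣ Multiplicative.toAdd (prZ g) := by
  unfold NN
  rw [MonoidHom.mem_ker, homF, MonoidHom.prod_apply, Prod.mk_eq_one]
  refine and_congr Iff.rfl ?_
  rw [← ZMod.intCast_zmod_eq_zero_iff_dvd]
  exact Iff.rfl

theorem NN_index (i : Lev) {m : ℕ} (hm : 0 < m) : (NN i m).FiniteIndex := by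
  have : NeZero m := ⟨hm.ne'⟩
  have : Finite (Multiplicative (ZMod m)) := inferInstanceAs (Finite (ZMod m))
  unfold NN
  infer_instance

theorem NN_finite (i : Lev) (m : ℕ) (hm : 0 < m) : Finite (HZ ⧸ NN i m) := by
  have := NN_index i hm
  infer_instance

/-- the logarithms of the determinants at the finite levels -/
theorem laplacian_fin (i : Lev) (m n : ℕ) : Real.log (fkDet ((X3.toCx.quot (NN i m)).laplacian n))
    = Real.log (fkDet (rMul (((X3.toCx.lapM n).map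
      (MonoidAlgebra.mapDomainRingHom ℤ (QuotientGroup.mk' (NN i m)))).map toQ))) := by
  rw [FreeCx.laplacian_eq, FreeCx.quot_lapM]
  rfl

theorem rank_ne : ∀ n < 4, X3.toCx.rank n ≠ 0
  | 0, _ => one_ne_zero
  | 1, _ => (by decide : 2 * 4 + 1 ≠ 0)
  | 2, _ => (by decide : 2 * 4 + 1 ≠ 0)
  | 3, _ => one_ne_zero
  | _ + 4, h => absurd h (by omega)

/-- Good exponents for one level. -/
theorem exists_exp (i : Lev) {m₀ : ℕ} (hm₀ : 0 < m₀) {δ : ℝ} (hδ : 0 < δ) (M : ℕ) :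
    ∃ m : ℕ, M ≤ m ∧ 0 < m ∧ m₀ ∣ m ∧
      |(X3.toCx.quot (NN i m)).l2torsion - torV i| < δ := by
  classical
  have h1 : ∀ n < 4, ∃ A : Finset ℂ, ∀ u : ℕ → ℕ, Tendsto u atTop atTop →
      (∀ j, 0 < u j) → (∀ α ∈ A, ‖α‖ = 1 → ∀ j, α ^ u j = 1 ∨
      Real.exp (-(1 / ((j : ℝ) + 1) * u j)) ≤ ‖1 - α ^ u j‖) →
      Tendsto (fun j => Real.log (fkDet ((X3.toCx.quot (NN i (u j))).laplacian n)))
        atTop (𝓝 (logDet (pL i) prZ (X3.toCx.lapM n))) := by
    intro n hn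
    have : NeZero (X3.toCx.rank n) := ⟨rank_ne n hn⟩
    obtain ⟨A, hA⟩ := exists_set (pL i) prZ (NN i) (X3.toCx.lapM n) (nondeg_X3 i n)
    refine ⟨A, fun u hu hu0 h => ?_⟩
    have h2 := hA u hu hu0 h (mem_NN i) (NN_finite i)
    refine h2.congr fun j => ?_
    rw [laplacian_fin]
  choose! A hA using h1
  obtain ⟨u, hu1, hu2, hu3, hu4⟩ := exists_good_seq ((Finset.range 4).biUnion A) hm₀
  have hu : Tendsto u atTop atTop := tendsto_atTop_mono hu1 tendsto_id
  have h3 : Tendsto (fun j => (X3.toCx.quot (NN i (u j))).l2torsion) atTop (𝓝 (torV i)) := by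
    rw [← sum_X3]
    unfold FreeCx.l2torsion
    refine Tendsto.const_mul _ (tendsto_finset_sum _ fun n hn => ?_)
    have hn4 : n < 4 := Finset.mem_range.mp hn
    refine Tendsto.const_mul _ (hA n hn4 u hu hu2 fun α hα => hu4 α ?_)
    rw [Finset.mem_biUnion]
    exact ⟨n, Finset.mem_range.mpr hn4, hα⟩
  obtain ⟨j, hj1, hj2⟩ := ((Metric.tendsto_nhds.mp h3 δ hδ).and (eventually_ge_atTop M)).exists
  exact ⟨u j, hj2.trans (hu1 j), hu2 j, hu3 j, by rwa [Real.dist_eq] at hj1⟩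

/-- the exponents of the chain -/
def ex (s : Sq) : ℕ → {m : ℕ // 0 < m}
  | 0 => ⟨1, one_pos⟩
  | i + 1 =>
    ⟨Classical.choose (exists_exp (levS s (i + 1)) (ex s i).2
      (show (0 : ℝ) < 1 / ((i : ℝ) + 1) by positivity) (i + 1)),
    (Classical.choose_spec (exists_exp (levS s (i + 1)) (ex s i).2
      (show (0 : ℝ) < 1 / ((i : ℝ) + 1) by positivity) (i + 1))).2.1⟩

theorem ex_spec (s : Sq) (i : ℕ) : i + 1 ≤ (ex s (i + 1)).1 ∧ (ex s i).1 ∣ (ex s (i + 1)).1 ∧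
    |(X3.toCx.quot (NN (levS s (i + 1)) (ex s (i + 1)).1)).l2torsion - torV (levS s (i + 1))|
      < 1 / ((i : ℝ) + 1) := by
  have h := Classical.choose_spec (exists_exp (levS s (i + 1)) (ex s i).2
      (show (0 : ℝ) < 1 / ((i : ℝ) + 1) by positivity) (i + 1))
  exact ⟨h.1, h.2.2.1, h.2.2.2⟩

/-- The chain of subgroups `Γ_i × m_i ℤ` of finite index. -/
def fch (s : Sq) (i : ℕ) : Subgroup HZ := NN (levS s i) (ex s i).1

instance fch_normal (s : Sq) (i : ℕ) : (fch s i).Normal := by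
  unfold fch
  infer_instance

theorem fch_index (s : Sq) (i : ℕ) : (fch s i).FiniteIndex := NN_index _ (ex s i).2

theorem mem_fch (s : Sq) (i : ℕ) (g : HZ) :
    g ∈ fch s i ↔ g.1 ∈ ch s i ∧ ((ex s i).1 : ℤ) ∣ Multiplicative.toAdd g.2 := by
  unfold fch
  rw [mem_NN]
  exact and_congr (QuotientGroup.eq_one_iff g.1) Iff.rfl

theorem fch_zero (s : Sq) : fch s 0 = ⊤ := by
  rw [eq_top_iff]
  intro g _
  rw [mem_fch]
  refine ⟨by rw [ch_zero]; exact Subgroup.mem_top _, ?_⟩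
  change ((1 : ℕ) : ℤ) ∣ _
  simp

theorem fch_anti (s : Sq) : Antitone (fch s) := by
  refine antitone_nat_of_succ_le fun i g hg => ?_
  rw [mem_fch] at hg ⊢
  exact ⟨ch_anti s (Nat.le_succ i) hg.1,
    (Int.natCast_dvd_natCast.mpr (ex_spec s i).2.1).trans hg.2⟩

theorem fch_inf (s : Sq) : ⨅ i, fch s i = ⊥ := by
  rw [eq_bot_iff]
  intro g hg
  rw [Subgroup.mem_iInf] at hg
  have h0 : ∀ i, g.1 ∈ ch s i ∧ ((ex s i).1 : ℤ) ∣ Multiplicative.toAdd g.2 := fun i =>
    (mem_fch s i g).mp (hg i)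
  have h1 : g.1 = 1 := by
    have : g.1 ∈ ⨅ i, ch s i := by
      rw [Subgroup.mem_iInf]
      exact fun i => (h0 i).1
    rwa [ch_inf, Subgroup.mem_bot] at this
  have h2 : Multiplicative.toAdd g.2 = 0 := by
    by_contra hx
    set x := Multiplicative.toAdd g.2 with hxd
    have h3 := (h0 (x.natAbs + 1)).2
    have h4 := Int.natAbs_dvd_natAbs.mpr h3
    have h5 := Nat.le_of_dvd (Int.natAbs_pos.mpr hx) h4
    simp only [Int.natAbs_natCast] at h5
    have h6 := (ex_spec s x.natAbs).1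
    omega
  exact Subgroup.mem_bot.mpr (Prod.ext h1 (Multiplicative.toAdd.injective h2))

theorem fch_tendsto (s : Sq) {c : ℝ} (h : Tendsto (fun i => torV (levS s i)) atTop (𝓝 c)) :
    Tendsto (fun i => (X3.toCx.quot (fch s i)).l2torsion) atTop (𝓝 c) := by
  rw [← tendsto_add_atTop_iff_nat 1]
  have h1 := (tendsto_add_atTop_iff_nat 1).mpr h
  have h2 : Tendsto (fun i => (X3.toCx.quot (fch s (i + 1))).l2torsion
      - torV (levS s (i + 1))) atTop (𝓝 0) := by
    refine squeeze_zero_norm (fun i => ?_) tendsto_one_div_add_atTop_nhds_zero_nat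
    exact (ex_spec s i).2.2.le
  have h3 := h2.add h1
  rw [zero_add] at h3
  refine h3.congr fun i => ?_
  ring

end Pool.Agent.X175.Tor
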