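import Pool.Agent.TH630.Tor.TorusFin
import Pool.Agent.Y226.FK.Chain

/-!
The `L²`-torsions of the quotients of the complex of the mapping torus: any finite quotient of the
Heisenberg group.
-/

open scoped Matrix Topology

noncomputable section

namespace Pool.Agent.X175.Tor

open Pool.Agent.TH630.Tor Pool.Agent.Helper993.FK Pool.Agent.Helper993.HeisDet
  Pool.Agent.TH304.J893

/-- A normal subgroup of finite index of the Heisenberg group with a formula for the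
determinants. -/
structure Lev where
  K : Subgroup (Heis ℤ)
  nrm : K.Normal
  n : ℕ
  k : ℕ
  hn : 0 < n
  hk : 0 < k
  fin : Finite (Heis ℤ ⧸ K)
  det : ∀ [Fintype (Heis ℤ ⧸ K)] [DecidableEq (Heis ℤ ⧸ K)] (c : ℂ),
    (gmat (MonoidAlgebra.mapDomain (QuotientGroup.mk' K) (elt ℂ c))).det = D n k k c
  card : Nat.card (Heis ℤ ⧸ K) = k * (n * k)

instance (i : Lev) : i.K.Normal := i.nrm

/-- the quotient -/
abbrev FL (i : Lev) : Type := Heis ℤ ⧸ i.K

instance (i : Lev) : Finite (FL i) := i.fin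
instance (i : Lev) : Fintype (FL i) := Fintype.ofFinite _
instance (i : Lev) : DecidableEq (FL i) := Classical.decEq _

/-- the projection to the quotient -/
def pL (i : Lev) : HZ →* FL i := (QuotientGroup.mk' i.K).comp (MonoidHom.fst _ _)

theorem e1_sm1 (i : Lev) {z : ℂ} (hz : z ≠ 0) :
    e1 (pL i) prZ z sm1 = (z - 1) • (1 : Matrix (FL i) (FL i) ℂ) := by
  unfold sm1
  rw [e1_sub, e1_one, e1_single _ _ hz]
  simp only [pL, prZ, MonoidHom.comp_apply, MonoidHom.coe_fst, MonoidHom.coe_snd, map_one,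
    regM_one, toAdd_ofAdd, zpow_one, Int.cast_one, one_mul]
  rw [sub_smul, one_smul]

theorem det_sm1 (i : Lev) {z : ℂ} (hz : z ≠ 0) :
    (e1 (pL i) prZ z sm1).det = (z - 1) ^ (Fintype.card (FL i)) := by
  rw [e1_sm1 i hz, Matrix.det_smul, Matrix.det_one, mul_one]

theorem det_Bm (i : Lev) {z : ℂ} (hz : z ≠ 0) : ‖(ev (pL i) prZ z Bm).det‖
    = ‖z - 1‖ ^ (4 * Fintype.card (FL i)) * ‖(e1 (pL i) prZ z (sg * sg + sg * ww - 1)).det‖
      * ‖(e1 (pL i) prZ z (sg * sg - sg * ww' - 1)).det‖ := by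
  rw [det_ev_blocks _ _ _ _ Bm_ur, Bm_ul, Bm_dr, det_ev_diagonal, Fin.prod_univ_four]
  have h4 : (ev (pL i) prZ z B4).det = (e1 (pL i) prZ z (sg * sg + sg * ww - 1)).det
      * (e1 (pL i) prZ z (-1)).det * (e1 (pL i) prZ z (-1)).det
      * (e1 (pL i) prZ z (sg * sg - sg * ww' - 1)).det := by
    have h : (ev (pL i) prZ z (U1 * B4 * U2)).det = (ev (pL i) prZ z (Matrix.diagonal
      ![sg * sg + sg * ww - 1, -1, -1, sg * sg - sg * ww' - 1])).det := by rw [factor]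
    rw [ev_mul, ev_mul, Matrix.det_mul, Matrix.det_mul, U1, U2, ev_mul, ev_mul, Matrix.det_mul,
      Matrix.det_mul, det_ev_transv _ _ _ (by decide), det_ev_transv _ _ _ (by decide),
      det_ev_transv _ _ _ (by decide), det_ev_transv _ _ _ (by decide), det_ev_diagonal,
      Fin.prod_univ_four, one_mul, mul_one, one_mul] at h
    exact h
  have h5 : ‖(e1 (pL i) prZ z (-1)).det‖ = 1 := by
    rw [e1_neg, e1_one, Matrix.det_neg, Matrix.det_one, mul_one, norm_pow, norm_neg, norm_one,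
      one_pow]
  rw [h4]
  change ‖(e1 (pL i) prZ z sm1).det * (e1 (pL i) prZ z sm1).det * (e1 (pL i) prZ z sm1).det
    * (e1 (pL i) prZ z sm1).det * _‖ = _
  rw [det_sm1 i hz]
  simp only [norm_mul, h5, norm_pow, mul_one]
  ring

theorem e1_sg (i : Lev) {z : ℂ} (hz : z ≠ 0) :
    e1 (pL i) prZ z sg = z • (1 : Matrix (FL i) (FL i) ℂ) := by
  unfold sg
  rw [e1_single _ _ hz]
  simp only [pL, prZ, MonoidHom.comp_apply, MonoidHom.coe_fst, MonoidHom.coe_snd, map_one,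
    regM_one, toAdd_ofAdd, zpow_one, Int.cast_one, one_mul]

theorem e1_heis (i : Lev) {z : ℂ} (hz : z ≠ 0) (h : Heis ℤ) :
    e1 (pL i) prZ z (MonoidAlgebra.single (h, 1) 1)
      = regM ℂ (QuotientGroup.mk' (i.K) h) := by
  rw [e1_single _ _ hz]
  simp only [pL, prZ, MonoidHom.comp_apply, MonoidHom.coe_fst, MonoidHom.coe_snd,
    toAdd_one, zpow_zero, Int.cast_one, one_mul, one_smul]

/-- the two factors -/
theorem e1_factor (i : Lev) {z : ℂ} (hz : z ≠ 0) : e1 (pL i) prZ z (sg * sg + sg * ww - 1)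
    = (z ^ 2 - 1) • (1 : Matrix (FL i) (FL i) ℂ)
      - (z * (-16)) • (regM ℂ (QuotientGroup.mk' (i.K) tt)
        - regM ℂ (QuotientGroup.mk' (i.K) (uu * tt))) := by
  have h1 : e1 (pL i) prZ z ww = (16 : ℂ) • (regM ℂ (QuotientGroup.mk' (i.K) tt)
        - regM ℂ (QuotientGroup.mk' (i.K) (uu * tt))) := by
    have := e1_nat (pL i) prZ z 16 (eT - eU * eT)
    unfold ww
    refine this.trans ?_
    rw [e1_sub, e1_mul, eT, eU, e1_heis i hz, e1_heis i hz, ← regM_mul, ← map_mul]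
    norm_num
  rw [e1_sub, e1_add, e1_mul, e1_mul, e1_one, e1_sg i hz, h1]
  simp only [smul_mul_assoc, one_mul, smul_smul]
  rw [sub_smul, one_smul, mul_neg, neg_smul, sub_neg_eq_add, sq]
  abel

theorem e1_factor' (i : Lev) {z : ℂ} (hz : z ≠ 0) : e1 (pL i) prZ z (sg * sg - sg * ww' - 1)
    = (z ^ 2 - 1) • (1 : Matrix (FL i) (FL i) ℂ)
      - (z * 16) • (regM ℂ (QuotientGroup.mk' (i.K) tt⁻¹)
        - regM ℂ (QuotientGroup.mk' (i.K) (uu * tt)⁻¹)) := by
  have h1 : e1 (pL i) prZ z ww' = (16 : ℂ) • (regM ℂ (QuotientGroup.mk' (i.K) tt⁻¹)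
        - regM ℂ (QuotientGroup.mk' (i.K) (uu * tt)⁻¹)) := by
    have := e1_nat (pL i) prZ z 16 (eT' - eT' * eU')
    unfold ww'
    refine this.trans ?_
    rw [e1_sub, e1_mul, eT', eU', e1_heis i hz, e1_heis i hz, ← regM_mul, ← map_mul, mul_inv_rev]
    norm_num
  rw [e1_sub, e1_sub, e1_mul, e1_mul, e1_one, e1_sg i hz, h1]
  simp only [smul_mul_assoc, one_mul, smul_smul]
  rw [sub_smul, one_smul, sq]
  abel

/-- the product of all block polynomials -/
def prodE (i : Lev) (M : ℂ) : Polynomial ℂ :=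
  ∏ η ∈ Polynomial.nthRootsFinset i.n (1 : ℂ),
    ∏ ζ ∈ Polynomial.nthRootsFinset i.k (1 : ℂ), eP i.k M η ζ

theorem det_pencil (i : Lev) (M : ℂ) {z : ℂ} (hz : 1 - z ^ 2 ≠ 0) :
    ‖((z ^ 2 - 1) • (1 : Matrix (FL i) (FL i) ℂ)
      - (z * M) • (regM ℂ (QuotientGroup.mk' (i.K) tt)
        - regM ℂ (QuotientGroup.mk' (i.K) (uu * tt)))).det‖ = ‖(prodE i M).eval z‖ := by
  set c : ℂ := z * M / (1 - z ^ 2) with hc
  have h1 : (z ^ 2 - 1) • (1 : Matrix (FL i) (FL i) ℂ)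
      - (z * M) • (regM ℂ (QuotientGroup.mk' (i.K) tt)
        - regM ℂ (QuotientGroup.mk' (i.K) (uu * tt)))
      = (z ^ 2 - 1) • gmat (MonoidAlgebra.mapDomain (QuotientGroup.mk' (i.K)) (elt ℂ c)) := by
    have h2 : (z ^ 2 - 1) * c = -(z * M) := by
      rw [hc]
      field_simp
      ring
    rw [gmat_eq, smul_sub (z ^ 2 - 1), smul_add, smul_smul, smul_smul, h2, neg_smul, neg_smul,
      smul_sub]
    abel
  have h3 : (gmat (MonoidAlgebra.mapDomain (QuotientGroup.mk' (i.K)) (elt ℂ c))).det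
      = D i.n i.k i.k c :=
    i.det c
  have h4 : Fintype.card (FL i) = i.k * (i.n * i.k) := by
    rw [← Nat.card_eq_fintype_card]
    exact i.card
  rw [h1, Matrix.det_smul, h3, prodE, Polynomial.eval_prod]
  simp_rw [Polynomial.eval_prod, eP_eval _ _ _ _ _ hz, Finset.prod_mul_distrib, Finset.prod_const]
  rw [(Complex.isPrimitiveRoot_exp i.n i.hn.ne').card_nthRootsFinset,
    (Complex.isPrimitiveRoot_exp i.k i.hk.ne').card_nthRootsFinset,
    norm_mul, norm_mul, h4, norm_pow, norm_pow, norm_pow, norm_pow, norm_sub_rev (z ^ 2) 1,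
    ← pow_mul, ← pow_mul]
  congr 2
  ring

theorem det_pencil' (i : Lev) {z : ℂ} (hz1 : ‖z‖ = 1) (hz : 1 - z ^ 2 ≠ 0) :
    ‖((z ^ 2 - 1) • (1 : Matrix (FL i) (FL i) ℂ)
      - (z * 16) • (regM ℂ (QuotientGroup.mk' (i.K) tt⁻¹)
        - regM ℂ (QuotientGroup.mk' (i.K) (uu * tt)⁻¹))).det‖ = ‖(prodE i 16).eval z⁻¹‖ := by
  have hz0 : z ≠ 0 := by
    rintro rfl
    simp at hz1
  have hs : star z = z⁻¹ := by
    rw [Complex.inv_def, Complex.normSq_eq_norm_sq, hz1]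
    simp
  have hz' : 1 - (z⁻¹) ^ 2 ≠ 0 := by
    intro h
    apply hz
    have : (z ^ 2) * (1 - (z⁻¹) ^ 2) = z ^ 2 - 1 := by
      field_simp
    rw [h, mul_zero] at this
    linear_combination this
  rw [← det_pencil i 16 hz', ← norm_star, ← Matrix.det_conjTranspose, Matrix.conjTranspose_sub,
    Matrix.conjTranspose_smul, Matrix.conjTranspose_smul, Matrix.conjTranspose_sub,
    regM_conjTranspose, regM_conjTranspose, Matrix.conjTranspose_one, map_inv, map_inv, inv_inv,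
    inv_inv, star_sub, star_mul', star_pow, hs]
  simp

/-- the determinants -/
def d0 (i : Lev) (z : ℂ) : ℝ := ‖(ev (pL i) prZ z (adjZ A0 * A0)).det‖
def d1 (i : Lev) (z : ℂ) : ℝ := ‖(ev (pL i) prZ z (adjZ A1 * A1 + A0 * adjZ A0)).det‖
def d2 (i : Lev) (z : ℂ) : ℝ := ‖(ev (pL i) prZ z (adjZ A2 * A2 + A1 * adjZ A1)).det‖
def d3 (i : Lev) (z : ℂ) : ℝ := ‖(ev (pL i) prZ z (A2 * adjZ A2)).det‖
def dG (i : Lev) (z : ℂ) : ℝ := ‖(ev (pL i) prZ z Bm).det‖

/-- the exceptional points -/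
def bad (i : Lev) : Set ℂ :=
  {1, -1} ∪ ((prodE i (-16)).roots.toFinset : Set ℂ)
    ∪ (fun z : ℂ => z⁻¹) '' ((prodE i 16).roots.toFinset : Set ℂ)

theorem bad_finite (i : Lev) : (bad i).Finite := by
  unfold bad
  exact ((Set.toFinite _).union (Finset.finite_toSet _)).union ((Finset.finite_toSet _).image _)

theorem prodE_ne (i : Lev) (M : ℂ) : prodE i M ≠ 0 := by
  unfold prodE
  exact Finset.prod_ne_zero_iff.mpr fun η _ => Finset.prod_ne_zero_iff.mpr fun ζ _ =>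
    eP_ne_zero i.hk M η ζ

theorem good {i : Lev} {z : ℂ} (hz : ‖z‖ = 1) (h : z ∉ bad i) :
    z ≠ 0 ∧ z ≠ 1 ∧ 1 - z ^ 2 ≠ 0 ∧ (prodE i (-16)).eval z ≠ 0 ∧ (prodE i 16).eval z⁻¹ ≠ 0 := by
  have hz0 : z ≠ 0 := by
    rintro rfl
    simp at hz
  unfold bad at h
  rw [Set.mem_union, Set.mem_union, not_or, not_or] at h
  obtain ⟨⟨h1, h2⟩, h3⟩ := h
  have h1a : z ≠ 1 := fun e => h1 (by simp [e])
  have h1b : z ≠ -1 := fun e => h1 (by simp [e])
  refine ⟨hz0, h1a, ?_, ?_, ?_⟩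
  · intro e
    have : (z - 1) * (z + 1) = 0 := by linear_combination -e
    rcases mul_eq_zero.mp this with e' | e'
    · exact h1a (sub_eq_zero.mp e')
    · exact h1b (eq_neg_of_add_eq_zero_left e')
  · intro e
    apply h2
    simp only [Finset.mem_coe, Multiset.mem_toFinset]
    exact (Polynomial.mem_roots (prodE_ne i _)).mpr e
  · intro e
    apply h3
    refine ⟨z⁻¹, ?_, inv_inv z⟩
    simp only [Finset.mem_coe, Multiset.mem_toFinset]
    exact (Polynomial.mem_roots (prodE_ne i _)).mpr e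

theorem dG_eq {i : Lev} {z : ℂ} (hz : ‖z‖ = 1) (h : z ∉ bad i) :
    dG i z = ‖z - 1‖ ^ (4 * Fintype.card (FL i)) * ‖(prodE i (-16)).eval z‖
      * ‖(prodE i 16).eval z⁻¹‖ := by
  obtain ⟨h0, -, h2, -, -⟩ := good hz h
  unfold dG
  rw [det_Bm i h0, e1_factor i h0, e1_factor' i h0, det_pencil i _ h2, det_pencil' i hz h2]

theorem det_facts {i : Lev} {z : ℂ} (hz : ‖z‖ = 1) (h : z ∉ bad i) :
    0 < d0 i z ∧ 0 < d1 i z ∧ 0 < d2 i z ∧ 0 < d3 i z ∧ 0 < dG i z ∧
    d2 i z * (‖z - 1‖ ^ Fintype.card (FL i)) ^ 4 = d3 i z ^ 2 * d0 i z * dG i z ^ 2 ∧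
    d1 i z * d3 i z = d0 i z * d2 i z := by
  obtain ⟨h0, h1, h2, h3, h4⟩ := good hz h
  obtain ⟨k1, k2, k3, k4⟩ := three_blocks (s := 2 * 4) (t := 1) (pL i) prZ hz A2 A1 A0
    A2_mul_A1 A1_mul_A0
  have eG0 : (ev (pL i) prZ z (rowD (s := 2 * 4) (t := 1) A0)).det
      = (z - 1) ^ (Fintype.card (FL i)) := by
    rw [rowD_A0, det_ev_diagonal, Fin.prod_univ_one]
    exact det_sm1 i h0
  have eG2 : (ev (pL i) prZ z (colR (s := 2 * 4) (t := 1) A2)).det
      = (z - 1) ^ (Fintype.card (FL i)) := by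
    rw [colR_A2, det_ev_diagonal, Fin.prod_univ_one]
    exact det_sm1 i h0
  have hz1 : (z - 1) ^ (Fintype.card (FL i)) ≠ 0 := pow_ne_zero _ (sub_ne_zero.mpr h1)
  have hz1' : 0 < ‖z - 1‖ := norm_pos_iff.mpr (sub_ne_zero.mpr h1)
  have p0 : 0 < d0 i z := norm_pos_iff.mpr (k3 (by rw [eG0]; exact hz1))
  have p3 : 0 < d3 i z := norm_pos_iff.mpr (k4 (by rw [eG2]; exact hz1))
  have pG : 0 < dG i z := by
    rw [dG_eq hz h]
    have := norm_pos_iff.mpr h3
    have := norm_pos_iff.mpr h4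
    positivity
  rw [eG0, eG2, colL_rowU_A1, norm_pow] at k1
  obtain ⟨p1, p2, k⟩ := real_facts (a0 := d0 i z) (a1 := d1 i z) (a2 := d2 i z) (a3 := d3 i z)
    (g := dG i z) (w := ‖z - 1‖ ^ Fintype.card (FL i)) p0 p3 pG (by positivity)
    (norm_nonneg _) (norm_nonneg _) k1 k2
  exact ⟨p0, p1, p2, p3, pG, k, k2⟩

theorem exists_good (i : Lev) : ∃ z : ℂ, ‖z‖ = 1 ∧ z ∉ bad i := by
  by_contra hcon
  push Not at hcon
  have h1 : Metric.sphere (0 : ℂ) 1 ⊆ bad i := fun z hz => hcon z (by simpa using hz)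
  exact sphere_infinite ((bad_finite i).subset h1)

theorem nd0 (i : Lev) : Nondeg (pL i) prZ (adjZ A0 * A0) := by
  obtain ⟨z, hz, h⟩ := exists_good i
  exact ⟨z, hz, norm_pos_iff.mp (det_facts hz h).1⟩

theorem nd1 (i : Lev) : Nondeg (pL i) prZ (adjZ A1 * A1 + A0 * adjZ A0) := by
  obtain ⟨z, hz, h⟩ := exists_good i
  exact ⟨z, hz, norm_pos_iff.mp (det_facts hz h).2.1⟩

theorem nd2 (i : Lev) : Nondeg (pL i) prZ (adjZ A2 * A2 + A1 * adjZ A1) := by
  obtain ⟨z, hz, h⟩ := exists_good i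
  exact ⟨z, hz, norm_pos_iff.mp (det_facts hz h).2.2.1⟩

theorem nd3 (i : Lev) : Nondeg (pL i) prZ (A2 * adjZ A2) := by
  obtain ⟨z, hz, h⟩ := exists_good i
  exact ⟨z, hz, norm_pos_iff.mp (det_facts hz h).2.2.2.1⟩

theorem ndG (i : Lev) : Nondeg (pL i) prZ Bm := by
  obtain ⟨z, hz, h⟩ := exists_good i
  exact ⟨z, hz, norm_pos_iff.mp (det_facts hz h).2.2.2.2.1⟩

theorem avg_dG (i : Lev) : avg (dG i)
    = S i.n i.k i.k (-16)
      + S i.n i.k i.k 16 := by
  unfold avg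
  have h1 : Real.circleAverage (fun z => Real.log (dG i z)) 0 1
      = Real.circleAverage (fun z => (4 * Fintype.card (FL i) : ℝ) • Real.log ‖z - 1‖
      + (Real.log ‖(prodE i (-16)).eval z‖ + Real.log ‖(prodE i 16).eval z⁻¹‖)) 0 1 := by
    apply circleAverage_congr_finite (bad i) (bad_finite i)
    intro z hz h
    obtain ⟨-, h1, -, h3, h4⟩ := good hz h
    have e1 : 0 < ‖z - 1‖ := norm_pos_iff.mpr (sub_ne_zero.mpr h1)
    have e3 := norm_pos_iff.mpr h3
    have e4 := norm_pos_iff.mpr h4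
    rw [dG_eq hz h, Real.log_mul (by positivity) (by positivity),
      Real.log_mul (by positivity) (by positivity), Real.log_pow, smul_eq_mul]
    push_cast
    ring
  have c1 : CircleIntegrable (fun z : ℂ => (4 * Fintype.card (FL i) : ℝ) • Real.log ‖z - 1‖) 0 1 :=
    (circleIntegrable_log_norm_sub_const 1).const_smul
  have c2 : CircleIntegrable (fun z : ℂ => Real.log ‖(prodE i (-16)).eval z‖) 0 1 := circ _
  have c3 : CircleIntegrable (fun z : ℂ => Real.log ‖(prodE i 16).eval z⁻¹‖) 0 1 := circ_inv _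
  have c23 : CircleIntegrable (fun z : ℂ => Real.log ‖(prodE i (-16)).eval z‖
    + Real.log ‖(prodE i 16).eval z⁻¹‖) 0 1 := c2.add c3
  have h2 : Real.circleAverage (fun z : ℂ => Real.log ‖(prodE i 16).eval z⁻¹‖) 0 1
      = Real.circleAverage (fun z : ℂ => Real.log ‖(prodE i 16).eval z‖) 0 1 :=
    Real.circleAverage_zero_one_congr_inv (f := fun z : ℂ => Real.log ‖(prodE i 16).eval z‖)
  rw [h1, Real.circleAverage_fun_add c1 c23, Real.circleAverage_fun_add c2 c3,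
    Real.circleAverage_fun_smul, circleAverage_log_sub_one, h2, S_eq i.hk,
    S_eq i.hk, smul_zero, zero_add]
  rfl

theorem avg_d2 (i : Lev) : avg (d2 i) = 2 * avg (d3 i) + avg (d0 i) + 2 * avg (dG i) := by
  unfold avg
  have h1 : Real.circleAverage (fun z => Real.log (d2 i z)) 0 1
      = Real.circleAverage (fun z => (-(4 * Fintype.card (FL i)) : ℝ) • Real.log ‖z - 1‖
      + ((2 : ℝ) • Real.log (d3 i z) + (Real.log (d0 i z) + (2 : ℝ) • Real.log (dG i z)))) 0 1 := by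
    apply circleAverage_congr_finite (bad i) (bad_finite i)
    intro z hz h
    obtain ⟨p0, p1, p2, p3, pG, k, -⟩ := det_facts hz h
    have e1 : 0 < ‖z - 1‖ := norm_pos_iff.mpr (sub_ne_zero.mpr (good hz h).2.1)
    rw [log_facts p0 p2 p3 pG (pow_pos e1 _) k, Real.log_pow]
    simp only [smul_eq_mul]
    ring
  have c1 : CircleIntegrable (fun z : ℂ => (-(4 * Fintype.card (FL i)) : ℝ) • Real.log ‖z - 1‖) 0 1 :=
    (circleIntegrable_log_norm_sub_const 1).const_smul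
  have c3' : CircleIntegrable (fun z : ℂ => Real.log (d3 i z)) 0 1 :=
    circleIntegrable_logDet _ _ (nd3 i)
  have c3 : CircleIntegrable (fun z : ℂ => (2 : ℝ) • Real.log (d3 i z)) 0 1 := c3'.const_smul
  have c0 : CircleIntegrable (fun z : ℂ => Real.log (d0 i z)) 0 1 :=
    circleIntegrable_logDet _ _ (nd0 i)
  have cG' : CircleIntegrable (fun z : ℂ => Real.log (dG i z)) 0 1 :=
    circleIntegrable_logDet (pL i) prZ (ndG i)
  have cG : CircleIntegrable (fun z : ℂ => (2 : ℝ) • Real.log (dG i z)) 0 1 := cG'.const_smul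
  have c0G : CircleIntegrable (fun z : ℂ => Real.log (d0 i z) + (2 : ℝ) • Real.log (dG i z)) 0 1 :=
    c0.add cG
  have c30G : CircleIntegrable (fun z : ℂ => (2 : ℝ) • Real.log (d3 i z)
    + (Real.log (d0 i z) + (2 : ℝ) • Real.log (dG i z))) 0 1 := c3.add c0G
  rw [h1, Real.circleAverage_fun_add c1 c30G, Real.circleAverage_fun_add c3 c0G,
    Real.circleAverage_fun_add c0 cG, Real.circleAverage_fun_smul, Real.circleAverage_fun_smul,
    Real.circleAverage_fun_smul, circleAverage_log_sub_one]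
  simp only [smul_eq_mul]
  ring

theorem avg_d1 (i : Lev) : avg (d1 i) + avg (d3 i) = avg (d0 i) + avg (d2 i) := by
  unfold avg
  have c0 : CircleIntegrable (fun z : ℂ => Real.log (d0 i z)) 0 1 :=
    circleIntegrable_logDet _ _ (nd0 i)
  have c1 : CircleIntegrable (fun z : ℂ => Real.log (d1 i z)) 0 1 :=
    circleIntegrable_logDet _ _ (nd1 i)
  have c2 : CircleIntegrable (fun z : ℂ => Real.log (d2 i z)) 0 1 :=
    circleIntegrable_logDet _ _ (nd2 i)
  have c3 : CircleIntegrable (fun z : ℂ => Real.log (d3 i z)) 0 1 :=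
    circleIntegrable_logDet _ _ (nd3 i)
  rw [← Real.circleAverage_fun_add c1 c3, ← Real.circleAverage_fun_add c0 c2]
  apply circleAverage_congr_finite (bad i) (bad_finite i)
  intro z hz h
  obtain ⟨p0, p1, p2, p3, pG, -, k⟩ := det_facts hz h
  rw [← Real.log_mul p1.ne' p3.ne', ← Real.log_mul p0.ne' p2.ne', k]


theorem nondeg_X3 (i : Lev) : ∀ n, Nondeg (pL i) prZ (X3.toCx.lapM n) :=
  X3.nondeg_all (pL i) prZ (nd0 i) (nd1 i) (nd2 i) (nd3 i)

theorem mem_prod_bot (i : Lev) (g : HZ) : g ∈ i.K.prod (⊥ : Subgroup (Multiplicative ℤ)) ↔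
    pL i g = 1 ∧ prZ g = 1 := by
  rw [Subgroup.mem_prod, Subgroup.mem_bot]
  exact and_congr (QuotientGroup.eq_one_iff g.1).symm Iff.rfl

/-- the value of the torsion -/
def torV (i : Lev) : ℝ := -((S i.n i.k i.k (-16) + S i.n i.k i.k 16)
  / (Nat.card (Heis ℤ ⧸ i.K) : ℝ))

/-- the sum of the logarithms of the determinants -/
theorem sum_X3 (i : Lev) : -(1 / 2 : ℝ) * ∑ n ∈ Finset.range (X3.toCx.dim + 1),
      (-1) ^ n * n * logDet (pL i) prZ (X3.toCx.lapM n) = torV i := by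
  have e1 : logDet (pL i) prZ (adjZ X3.b2 * X3.b2 + X3.b1 * adjZ X3.b1)
      = 1 / Fintype.card (FL i) * avg (d1 i) := rfl
  have e2 : logDet (pL i) prZ (adjZ X3.b3 * X3.b3 + X3.b2 * adjZ X3.b2)
      = 1 / Fintype.card (FL i) * avg (d2 i) := rfl
  have e3 : logDet (pL i) prZ (X3.b3 * adjZ X3.b3)
      = 1 / Fintype.card (FL i) * avg (d3 i) := rfl
  rw [X3.sum_logDet, e1, e2, e3, torV, Nat.card_eq_fintype_card, ← avg_dG]
  have k1 := avg_d1 i
  have k2 := avg_d2 i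
  have k3 : avg (d1 i) = avg (d0 i) + avg (d2 i) - avg (d3 i) := by linarith
  rw [k3, k2]
  ring

/-- the levels -/
theorem level_X3 (i : Lev) (N : Subgroup HZ) [N.Normal] (hN : N = i.K.prod ⊥) :
    (X3.toCx.quot N).DetL2Acyclic ∧ (X3.toCx.quot N).l2torsion = torV i := by
  obtain ⟨h1, h2⟩ := X3.toCx.level' N (pL i) prZ (fun g => by rw [hN]; exact mem_prod_bot i g)
    (nondeg_X3 i)
  exact ⟨h1, h2.trans (sum_X3 i)⟩

end Pool.Agent.X175.Tor
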