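import Mathlib
import Pool.Agent.Y226.FK.Det

/-!
Averages of the logarithm of a polynomial over the roots of unity.
-/

noncomputable section

namespace Pool.Agent.X175.Tor

open Finset Polynomial Filter Topology Pool.Agent.Helper993.HeisDet Pool.Agent.Y226.FK

theorem sum_zpow_roots {m : ℕ} (hm : 0 < m) (k : ℤ) :
    ∑ ζ ∈ nthRootsFinset m (1 : ℂ), ζ ^ k = if (m : ℤ) ∣ k then (m : ℂ) else 0 := by
  split_ifs with h
  · obtain ⟨d, rfl⟩ := h
    have h1 : ∀ ζ ∈ nthRootsFinset m (1 : ℂ), ζ ^ ((m : ℤ) * d) = 1 := by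
      intro ζ hζ
      rw [mem_nthRootsFinset hm] at hζ
      rw [zpow_mul, zpow_natCast, hζ, one_zpow]
    rw [sum_congr rfl h1, sum_const, card_nthRoots hm, nsmul_eq_mul, mul_one]
  · have hω := Complex.isPrimitiveRoot_exp m hm.ne'
    set ω := Complex.exp (2 * Real.pi * Complex.I / m) with hωd
    have hω0 : ω ≠ 0 := hω.ne_zero hm.ne'
    have hk : ω ^ k ≠ 1 := fun h1 => h ((hω.zpow_eq_one_iff_dvd k).mp h1)
    have h2 : ∑ ζ ∈ nthRootsFinset m (1 : ℂ), ζ ^ k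
        = ω ^ k * ∑ ζ ∈ nthRootsFinset m (1 : ℂ), ζ ^ k := by
      rw [mul_sum]
      refine (sum_nbij' (fun ζ => ω * ζ) (fun ζ => ω⁻¹ * ζ) ?_ ?_ ?_ ?_ ?_).symm
      · intro ζ hζ
        rw [mem_nthRootsFinset hm] at hζ ⊢
        rw [mul_pow, hζ, hω.pow_eq_one, one_mul]
      · intro ζ hζ
        rw [mem_nthRootsFinset hm] at hζ ⊢
        rw [mul_pow, hζ, inv_pow, hω.pow_eq_one, inv_one, one_mul]
      · intro ζ _
        rw [← mul_assoc, inv_mul_cancel₀ hω0, one_mul]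
      · intro ζ _
        rw [← mul_assoc, mul_inv_cancel₀ hω0, one_mul]
      · intro ζ _
        rw [mul_zpow]
    have h3 : (1 - ω ^ k) * ∑ ζ ∈ nthRootsFinset m (1 : ℂ), ζ ^ k = 0 := by
      rw [sub_mul, one_mul, ← h2, sub_self]
    rcases mul_eq_zero.mp h3 with h4 | h4
    · exact absurd (sub_eq_zero.mp h4).symm hk
    · exact h4

theorem prod_roots_eval {m : ℕ} (hm : 0 < m) (α : ℂ) :
    ∏ ζ ∈ nthRootsFinset m (1 : ℂ), (α - ζ) = α ^ m - 1 := by
  have h := X_pow_sub_one_eq_prod hm (Complex.isPrimitiveRoot_exp m hm.ne')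
  have h2 := congrArg (Polynomial.eval α) h
  rw [eval_prod] at h2
  simp only [eval_sub, eval_pow, eval_X, eval_one, eval_C] at h2
  exact h2.symm

theorem prod_roots_erase {m : ℕ} (hm : 0 < m) {α : ℂ} (hα : α ^ m = 1) :
    ∏ ζ ∈ (nthRootsFinset m (1 : ℂ)).erase α, (α - ζ) = m * α ^ (m - 1) := by
  classical
  have h := X_pow_sub_one_eq_prod hm (Complex.isPrimitiveRoot_exp m hm.ne')
  have hmem : α ∈ nthRootsFinset m (1 : ℂ) := (mem_nthRootsFinset hm _).mpr hα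
  rw [← mul_prod_erase _ _ hmem] at h
  have h2 := congrArg (fun p => Polynomial.eval α (derivative p)) h
  simp only [derivative_mul, derivative_sub, derivative_X, derivative_C, derivative_one,
    derivative_X_pow, eval_add, eval_mul, eval_sub, eval_X, eval_C, sub_self, zero_mul,
    add_zero, sub_zero, one_mul, eval_prod, eval_pow, map_natCast, eval_natCast] at h2
  exact h2.symm

/-- the sum of the logarithms of the distances to the roots of unity -/
def sf (m : ℕ) (α : ℂ) : ℝ := ∑ ζ ∈ nthRootsFinset m (1 : ℂ), Real.log ‖ζ - α‖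

theorem sf_eq {m : ℕ} (hm : 0 < m) {α : ℂ} (hα : α ^ m ≠ 1) : sf m α = Real.log ‖1 - α ^ m‖ := by
  have h := prod_roots_eval hm α
  have hne : ∀ ζ ∈ nthRootsFinset m (1 : ℂ), ‖ζ - α‖ ≠ 0 := by
    intro ζ hζ h0
    rw [mem_nthRootsFinset hm] at hζ
    rw [norm_eq_zero, sub_eq_zero] at h0
    rw [h0] at hζ
    exact hα hζ
  unfold sf
  rw [← Real.log_prod hne, norm_sub_rev 1, ← h, norm_prod]
  congr 1
  exact prod_congr rfl fun ζ _ => norm_sub_rev _ _

theorem sf_eq_log {m : ℕ} (hm : 0 < m) {α : ℂ} (hα : α ^ m = 1) : sf m α = Real.log m := by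
  classical
  have hmem : α ∈ nthRootsFinset m (1 : ℂ) := (mem_nthRootsFinset hm _).mpr hα
  have h := prod_roots_erase hm hα
  have hn : ‖α‖ = 1 := Complex.norm_eq_one_of_pow_eq_one hα hm.ne'
  unfold sf
  rw [← add_sum_erase _ _ hmem, sub_self, norm_zero, Real.log_zero, zero_add, ← Real.log_prod]
  · have h2 := congrArg norm h
    rw [norm_prod, norm_mul, norm_pow, hn, one_pow, mul_one, Complex.norm_natCast] at h2
    rw [← h2]
    congr 1
    exact prod_congr rfl fun ζ _ => norm_sub_rev _ _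
  · intro ζ hζ h0
    rw [norm_eq_zero, sub_eq_zero] at h0
    exact (ne_of_mem_erase hζ) h0

/-- The exponents which are good for all numbers of a finite set. -/
theorem exists_good_exp (A : Finset ℂ) (hA : ∀ α ∈ A, ‖α‖ = 1) {m₀ : ℕ} (hm₀ : 0 < m₀) {ε : ℝ}
    (hε : 0 < ε) (M : ℕ) : ∃ m : ℕ, M ≤ m ∧ 0 < m ∧ m₀ ∣ m ∧
      ∀ α ∈ A, α ^ m = 1 ∨ Real.exp (-(ε * m)) ≤ ‖1 - α ^ m‖ := by
  classical
  -- the minimum of the nonzero distances
  obtain ⟨δ, hδ, hδA⟩ : ∃ δ : ℝ, 0 < δ ∧ ∀ α ∈ A, ∀ d ∈ Finset.Icc 1 A.card,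
      (α ^ m₀) ^ d ≠ 1 → δ ≤ ‖1 - (α ^ m₀) ^ d‖ := by
    set T := ((A ×ˢ Finset.Icc 1 A.card).filter fun p => (p.1 ^ m₀) ^ p.2 ≠ 1) with hT
    rcases T.eq_empty_or_nonempty with h | h
    · refine ⟨1, one_pos, fun α hα d hd hne => ?_⟩
      have : (α, d) ∈ T := by
        rw [hT, mem_filter, mem_product]
        exact ⟨⟨hα, hd⟩, hne⟩
      rw [h] at this
      exact absurd this (notMem_empty _)
    · obtain ⟨p, hp, hmin⟩ := T.exists_min_image (fun p => ‖1 - (p.1 ^ m₀) ^ p.2‖) h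
      refine ⟨‖1 - (p.1 ^ m₀) ^ p.2‖, ?_, fun α hα d hd hne => ?_⟩
      · rw [hT, mem_filter] at hp
        exact norm_pos_iff.mpr (sub_ne_zero.mpr hp.2.symm)
      · exact hmin (α, d) (by rw [hT, mem_filter, mem_product]; exact ⟨⟨hα, hd⟩, hne⟩)
  -- a large exponent
  set s := A.card with hs
  obtain ⟨t, htM, ht⟩ : ∃ t : ℕ, M ≤ t ∧ 2 * Real.exp (-(ε * t)) < min δ (1 / (s + 1)) := by
    have h1 : Tendsto (fun t : ℕ => 2 * Real.exp (-(ε * t))) atTop (𝓝 (2 * 0)) := by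
      refine Tendsto.const_mul 2 ?_
      refine Real.tendsto_exp_atBot.comp ?_
      rw [tendsto_neg_atBot_iff]
      exact Tendsto.const_mul_atTop hε tendsto_natCast_atTop_atTop
    rw [mul_zero] at h1
    have h2 := h1.eventually_lt_const (u := min δ (1 / ((s : ℝ) + 1)))
      (lt_min hδ (by positivity))
    obtain ⟨t, h3, h4⟩ := (h2.and (eventually_ge_atTop M)).exists
    exact ⟨t, h4, h3⟩
  by_contra hcon
  push Not at hcon
  have hbad : ∀ a : Fin (s + 1), ∃ α ∈ A, α ^ (m₀ * (t + 1 + a)) ≠ 1 ∧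
      ‖1 - α ^ (m₀ * (t + 1 + a))‖ < Real.exp (-(ε * (m₀ * (t + 1 + a) : ℕ))) := by
    intro a
    exact hcon (m₀ * (t + 1 + a)) (by nlinarith) (by positivity) (Dvd.intro _ rfl)
  choose f hfA hf1 hf2 using hbad
  obtain ⟨a, -, b, -, hab, hfab⟩ := Finset.exists_ne_map_eq_of_card_lt_of_maps_to
    (s := (Finset.univ : Finset (Fin (s + 1)))) (t := A) (f := f)
    (by rw [Finset.card_univ, Fintype.card_fin]; omega) (fun a _ => hfA a)
  wlog hlt : (a : ℕ) < b generalizing a b with H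
  · exact H b a hab.symm hfab.symm (by
      have : (a : ℕ) ≠ b := fun h => hab (Fin.ext h)
      omega)
  set β := f a ^ m₀ with hβ
  have hβn : ‖β‖ = 1 := by rw [hβ, norm_pow, hA _ (hfA a), one_pow]
  have hm1 : (1 : ℝ) ≤ m₀ := by exact_mod_cast hm₀
  have hexp : ∀ c : ℕ, Real.exp (-(ε * (m₀ * (t + 1 + c) : ℕ))) ≤ Real.exp (-(ε * t)) := by
    intro c
    apply Real.exp_le_exp.mpr
    push_cast
    have h1 : (t : ℝ) ≤ m₀ * (t + 1 + c) := by
      have h2 : (0 : ℝ) ≤ t := Nat.cast_nonneg t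
      have h3 : (0 : ℝ) ≤ c := Nat.cast_nonneg c
      nlinarith
    nlinarith
  have ea : ‖1 - β ^ (t + 1 + (a : ℕ))‖ < Real.exp (-(ε * t)) := by
    have h1 := hf2 a
    rw [pow_mul] at h1
    exact h1.trans_le (hexp a)
  have eb : ‖1 - β ^ (t + 1 + (b : ℕ))‖ < Real.exp (-(ε * t)) := by
    have h1 := hf2 b
    rw [← hfab, pow_mul] at h1
    exact h1.trans_le (hexp b)
  set d : ℕ := (b : ℕ) - a with hd
  have hd1 : 1 ≤ d := by omega
  have hds : d ≤ s := by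
    have := b.2
    omega
  have hba : t + 1 + (b : ℕ) = (t + 1 + a) + d := by omega
  have ed : ‖1 - β ^ d‖ < 2 * Real.exp (-(ε * t)) := by
    have h1 : β ^ (t + 1 + (a : ℕ)) * (1 - β ^ d) = (1 - β ^ (t + 1 + (b : ℕ)))
        - (1 - β ^ (t + 1 + (a : ℕ))) := by
      rw [hba, pow_add]
      ring
    have h2 : ‖1 - β ^ d‖ = ‖β ^ (t + 1 + (a : ℕ)) * (1 - β ^ d)‖ := by
      rw [norm_mul, norm_pow, hβn, one_pow, one_mul]
    rw [h2, h1]
    refine (norm_sub_le _ _).trans_lt ?_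
    linarith
  by_cases hβd : β ^ d = 1
  · -- a root of unity
    have hne : β ^ (t + 1 + (a : ℕ)) ≠ 1 := by
      have h1 := hf1 a
      rwa [pow_mul] at h1
    have hwd : (β ^ (t + 1 + (a : ℕ))) ^ d = 1 := by
      rw [← pow_mul, mul_comm, pow_mul, hβd, one_pow]
    have h1 := norm_one_sub_ge hwd hne (by omega)
    have h2 : 1 / ((s : ℝ) + 1) ≤ 1 / (d : ℝ) := by
      apply one_div_le_one_div_of_le
      · exact_mod_cast hd1
      · have : (d : ℝ) ≤ s := by exact_mod_cast hds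
        linarith
    have h3 := ht.trans_le (min_le_right _ _)
    have h4 : 0 < Real.exp (-(ε * t)) := Real.exp_pos _
    linarith
  · have h1 := hδA (f a) (hfA a) d (Finset.mem_Icc.mpr ⟨hd1, hds⟩) hβd
    have h2 := ht.trans_le (min_le_left _ _)
    linarith

/-- Sequences of exponents. -/
theorem exists_good_seq (A : Finset ℂ) {m₀ : ℕ} (hm₀ : 0 < m₀) : ∃ u : ℕ → ℕ,
    (∀ j, j ≤ u j) ∧ (∀ j, 0 < u j) ∧ (∀ j, m₀ ∣ u j) ∧ ∀ α ∈ A, ‖α‖ = 1 → ∀ j,
      α ^ u j = 1 ∨ Real.exp (-(1 / ((j : ℝ) + 1) * u j)) ≤ ‖1 - α ^ u j‖ := by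
  classical
  have h := fun j : ℕ => exists_good_exp (A.filter fun α => ‖α‖ = 1)
    (fun α hα => (mem_filter.mp hα).2) hm₀ (ε := 1 / ((j : ℝ) + 1)) (by positivity) j
  choose u h1 h2 h3 h4 using h
  exact ⟨u, h1, h2, h3, fun α hα hn j => h4 j α (mem_filter.mpr ⟨hα, hn⟩)⟩

theorem tendsto_log_div {u : ℕ → ℕ} (hu : Tendsto u atTop atTop) :
    Tendsto (fun j => Real.log (u j) / (u j : ℝ)) atTop (𝓝 0) := by
  have h1 : Tendsto (fun x : ℝ => Real.log x / x) atTop (𝓝 0) := by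
    have := Real.isLittleO_log_id_atTop.tendsto_div_nhds_zero
    exact this
  exact h1.comp (tendsto_natCast_atTop_atTop.comp hu)

theorem tendsto_const_div {u : ℕ → ℕ} (hu : Tendsto u atTop atTop) (c : ℝ) :
    Tendsto (fun j => c / (u j : ℝ)) atTop (𝓝 0) :=
  tendsto_const_nhds.div_atTop (tendsto_natCast_atTop_atTop.comp hu)

theorem tendsto_sf_lt {u : ℕ → ℕ} (hu : Tendsto u atTop atTop) (hu0 : ∀ j, 0 < u j) {α : ℂ}
    (hα : ‖α‖ < 1) : Tendsto (fun j => sf (u j) α / (u j : ℝ)) atTop (𝓝 0) := by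
  have h1 : ∀ j, sf (u j) α = Real.log ‖1 - α ^ u j‖ := fun j => sf_eq (hu0 j) (by
    intro h
    have := Complex.norm_eq_one_of_pow_eq_one h (hu0 j).ne'
    linarith)
  simp_rw [h1]
  have h2 : Tendsto (fun n : ℕ => α ^ n) atTop (𝓝 0) := tendsto_pow_atTop_nhds_zero_of_norm_lt_one hα
  have h3 : Tendsto (fun j => Real.log ‖1 - α ^ u j‖) atTop (𝓝 0) := by
    have h4 : Tendsto (fun j => ‖1 - α ^ u j‖) atTop (𝓝 ‖(1 : ℂ) - 0‖) :=
      (tendsto_const_nhds.sub (h2.comp hu)).norm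
    rw [sub_zero, norm_one] at h4
    have h5 := (Real.continuousAt_log one_ne_zero).tendsto.comp h4
    rw [Real.log_one] at h5
    exact h5
  exact h3.div_atTop (tendsto_natCast_atTop_atTop.comp hu)

theorem sf_inv {m : ℕ} (hm : 0 < m) {α : ℂ} (hα : 1 < ‖α‖) :
    sf m α = m * Real.log ‖α‖ + sf m α⁻¹ := by
  have h0 : α ≠ 0 := by
    rintro rfl
    norm_num at hα
  have hne : ∀ β : ℂ, ‖β‖ ≠ 1 → β ^ m ≠ 1 := fun β hβ h =>
    hβ (Complex.norm_eq_one_of_pow_eq_one h hm.ne')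
  have hn' : ‖α⁻¹‖ ≠ 1 := by
    rw [norm_inv]
    intro h
    rw [inv_eq_one] at h
    linarith
  rw [sf_eq hm (hne α (by linarith)), sf_eq hm (hne _ hn')]
  have h1 : ‖1 - α ^ m‖ = ‖α‖ ^ m * ‖1 - α⁻¹ ^ m‖ := by
    rw [← norm_pow, ← norm_mul, mul_sub, mul_one, inv_pow, mul_inv_cancel₀ (pow_ne_zero m h0),
      norm_sub_rev]
  have h2 : ‖1 - α⁻¹ ^ m‖ ≠ 0 := by
    rw [norm_ne_zero_iff]
    exact sub_ne_zero.mpr (hne _ hn').symm
  rw [h1, Real.log_mul (pow_ne_zero m (norm_ne_zero_iff.mpr h0)) h2, Real.log_pow]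

theorem tendsto_sf_gt {u : ℕ → ℕ} (hu : Tendsto u atTop atTop) (hu0 : ∀ j, 0 < u j) {α : ℂ}
    (hα : 1 < ‖α‖) : Tendsto (fun j => sf (u j) α / (u j : ℝ)) atTop (𝓝 (Real.log ‖α‖)) := by
  have h1 : ‖α⁻¹‖ < 1 := by
    rw [norm_inv]
    exact inv_lt_one_of_one_lt₀ hα
  have h2 := (tendsto_sf_lt hu hu0 h1).const_add (Real.log ‖α‖)
  rw [add_zero] at h2
  refine h2.congr fun j => ?_
  have hj : (u j : ℝ) ≠ 0 := by exact_mod_cast (hu0 j).ne'
  rw [sf_inv (hu0 j) hα, add_div, mul_comm, mul_div_assoc, div_self hj, mul_one]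

theorem tendsto_sf_eq {u : ℕ → ℕ} (hu : Tendsto u atTop atTop) (hu0 : ∀ j, 0 < u j) {α : ℂ}
    (hα : ‖α‖ = 1) (h : ∀ j, α ^ u j = 1 ∨
      Real.exp (-(1 / ((j : ℝ) + 1) * u j)) ≤ ‖1 - α ^ u j‖) :
    Tendsto (fun j => sf (u j) α / (u j : ℝ)) atTop (𝓝 0) := by
  have e1 := tendsto_log_div hu
  have e2 := tendsto_const_div hu (Real.log 2)
  have e3 : Tendsto (fun j : ℕ => 1 / ((j : ℝ) + 1)) atTop (𝓝 0) :=
    tendsto_one_div_add_atTop_nhds_zero_nat
  have e4 := (e1.add e2).add e3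
  simp only [add_zero] at e4
  refine squeeze_zero_norm (fun j => ?_) e4
  have hj : (0 : ℝ) < u j := by exact_mod_cast hu0 j
  have hj1 : (1 : ℝ) ≤ u j := by exact_mod_cast hu0 j
  have hl : 0 ≤ Real.log (u j) := Real.log_nonneg hj1
  have hl2 : 0 ≤ Real.log 2 := Real.log_nonneg (by norm_num)
  have hpos : (0 : ℝ) ≤ 1 / ((j : ℝ) + 1) := by positivity
  have hd2 : 0 ≤ Real.log 2 / (u j : ℝ) := div_nonneg hl2 hj.le
  have hd1 : 0 ≤ Real.log (u j) / (u j : ℝ) := div_nonneg hl hj.le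
  rw [Real.norm_eq_abs]
  by_cases h1 : α ^ u j = 1
  · rw [sf_eq_log (hu0 j) h1, abs_of_nonneg hd1]
    linarith
  · have h2 := (h j).resolve_left h1
    rw [sf_eq (hu0 j) h1]
    have h3 : ‖1 - α ^ u j‖ ≤ 2 := by
      have := norm_sub_le 1 (α ^ u j)
      rw [norm_one, norm_pow, hα, one_pow] at this
      linarith
    have h4 := Real.log_le_log (lt_of_lt_of_le (Real.exp_pos _) h2) h3
    have h5 := Real.log_le_log (Real.exp_pos _) h2
    rw [Real.log_exp] at h5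
    rw [abs_le]
    constructor
    · rw [le_div_iff₀ hj]
      have h6 : (Real.log (u j) / (u j : ℝ) + Real.log 2 / (u j : ℝ)) * (u j : ℝ) =
          Real.log (u j) + Real.log 2 := by
        field_simp
      nlinarith
    · rw [div_le_iff₀ hj]
      have h6 : (Real.log (u j) / (u j : ℝ) + Real.log 2 / (u j : ℝ)) * (u j : ℝ) =
          Real.log (u j) + Real.log 2 := by
        field_simp
      nlinarith [mul_nonneg hpos hj.le]

theorem tendsto_sf {u : ℕ → ℕ} (hu : Tendsto u atTop atTop) (hu0 : ∀ j, 0 < u j) {α : ℂ}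
    (h : ‖α‖ = 1 → ∀ j, α ^ u j = 1 ∨
      Real.exp (-(1 / ((j : ℝ) + 1) * u j)) ≤ ‖1 - α ^ u j‖) :
    Tendsto (fun j => sf (u j) α / (u j : ℝ)) atTop (𝓝 (Real.posLog ‖α‖)) := by
  rcases lt_trichotomy ‖α‖ 1 with h1 | h1 | h1
  · rw [(Real.posLog_eq_zero_iff _).mpr (by rw [abs_norm]; exact h1.le)]
    exact tendsto_sf_lt hu hu0 h1
  · rw [(Real.posLog_eq_zero_iff _).mpr (by rw [abs_norm]; exact h1.le)]
    exact tendsto_sf_eq hu hu0 h1 (h h1)
  · rw [Real.posLog_eq_log (by rw [abs_norm]; exact h1.le)]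
    exact tendsto_sf_gt hu hu0 h1

theorem log_eval {P : ℂ[X]} {z : ℂ} (hz : P.eval z ≠ 0) :
    Real.log ‖P.eval z‖ = Real.log ‖P.leadingCoeff‖
      + (P.roots.map fun α => Real.log ‖z - α‖).sum := by
  have h1 : P ≠ 0 := by
    rintro rfl
    simp at hz
  have h2 := (IsAlgClosed.splits P).eval_eq_prod_roots z
  have h3 : ∀ s : Multiset ℂ, (∀ α ∈ s, z - α ≠ 0) →
      Real.log ‖(s.map fun α => z - α).prod‖ = (s.map fun α => Real.log ‖z - α‖).sum := by
    intro s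
    induction s using Multiset.induction_on with
    | empty => intro _; simp
    | cons a s ih =>
      intro hs
      rw [Multiset.map_cons, Multiset.prod_cons, Multiset.map_cons, Multiset.sum_cons, norm_mul,
        Real.log_mul, ih fun α hα => hs α (Multiset.mem_cons_of_mem hα)]
      · exact norm_ne_zero_iff.mpr (hs a (Multiset.mem_cons_self a s))
      · rw [norm_ne_zero_iff]
        intro h0
        rw [Multiset.prod_eq_zero_iff, Multiset.mem_map] at h0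
        obtain ⟨α, hα, h4⟩ := h0
        exact hs α (Multiset.mem_cons_of_mem hα) h4
  have h4 : ∀ α ∈ P.roots, z - α ≠ 0 := by
    intro α hα h0
    rw [sub_eq_zero] at h0
    rw [h0] at hz
    exact hz (isRoot_of_mem_roots hα)
  have h5 : (P.roots.map fun α => z - α).prod ≠ 0 := by
    intro h0
    rw [Multiset.prod_eq_zero_iff, Multiset.mem_map] at h0
    obtain ⟨α, hα, h6⟩ := h0
    exact h4 α hα h6
  rw [h2, norm_mul, Real.log_mul (norm_ne_zero_iff.mpr (leadingCoeff_ne_zero.mpr h1))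
    (norm_ne_zero_iff.mpr h5), h3 _ h4]

theorem sum_multiset (s : Multiset ℂ) (T : Finset ℂ) (F : ℂ → ℂ → ℝ) :
    ∑ ζ ∈ T, (s.map fun α => F ζ α).sum = (s.map fun α => ∑ ζ ∈ T, F ζ α).sum := by
  induction s using Multiset.induction_on with
  | empty => simp
  | cons a s ih =>
    simp only [Multiset.map_cons, Multiset.sum_cons, Finset.sum_add_distrib, ih]

theorem tendsto_multiset (s : Multiset ℂ) (F : ℕ → ℂ → ℝ) (L : ℂ → ℝ)
    (h : ∀ α ∈ s, Tendsto (fun j => F j α) atTop (𝓝 (L α))) :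
    Tendsto (fun j => (s.map fun α => F j α).sum) atTop (𝓝 (s.map L).sum) := by
  induction s using Multiset.induction_on with
  | empty => simp
  | cons a s ih =>
    simp only [Multiset.map_cons, Multiset.sum_cons]
    exact (h a (Multiset.mem_cons_self a s)).add
      (ih fun α hα => h α (Multiset.mem_cons_of_mem hα))

/-- The averages over the roots of unity converge to the logarithmic Mahler measure. -/
theorem tendsto_avg {P : ℂ[X]} (hP : P ≠ 0) (g : ℂ → ℝ)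
    (hg : ∀ z : ℂ, ‖z‖ = 1 → P.eval z ≠ 0 → g z = Real.log ‖P.eval z‖) {u : ℕ → ℕ}
    (hu : Tendsto u atTop atTop) (hu0 : ∀ j, 0 < u j)
    (h : ∀ α ∈ P.roots, ‖α‖ = 1 → ∀ j, α ^ u j = 1 ∨
      Real.exp (-(1 / ((j : ℝ) + 1) * u j)) ≤ ‖1 - α ^ u j‖) :
    Tendsto (fun j => (∑ ζ ∈ nthRootsFinset (u j) (1 : ℂ), g ζ) / (u j : ℝ)) atTop
      (𝓝 P.logMahlerMeasure) := by
  classical
  set E : ℂ → ℝ := fun z => Real.log ‖P.leadingCoeff‖
      + (P.roots.map fun α => Real.log ‖z - α‖).sum with hE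
  have h1 : ∀ m : ℕ, 0 < m → ∑ ζ ∈ nthRootsFinset m (1 : ℂ), E ζ
      = m * Real.log ‖P.leadingCoeff‖ + (P.roots.map fun α => sf m α).sum := by
    intro m hm
    rw [hE, Finset.sum_add_distrib, sum_const, card_nthRoots hm, nsmul_eq_mul, sum_multiset]
    rfl
  have h2 : Tendsto (fun j => (∑ ζ ∈ nthRootsFinset (u j) (1 : ℂ), E ζ) / (u j : ℝ)) atTop
      (𝓝 P.logMahlerMeasure) := by
    rw [logMahlerMeasure_eq_log_leadingCoeff_add_sum_log_roots]
    have h3 := (tendsto_multiset P.roots (fun j α => sf (u j) α / (u j : ℝ))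
      (fun α => Real.posLog ‖α‖) (fun α hα => tendsto_sf hu hu0 (h α hα))).const_add
      (Real.log ‖P.leadingCoeff‖)
    refine h3.congr fun j => ?_
    have hj : (u j : ℝ) ≠ 0 := by exact_mod_cast (hu0 j).ne'
    rw [h1 (u j) (hu0 j), add_div, mul_comm, mul_div_assoc, div_self hj, mul_one]
    congr 1
    rw [Multiset.sum_map_div]
  set D : ℝ := ∑ z ∈ P.roots.toFinset, |g z - E z| with hD
  have h4 : ∀ j, |(∑ ζ ∈ nthRootsFinset (u j) (1 : ℂ), g ζ)
      - ∑ ζ ∈ nthRootsFinset (u j) (1 : ℂ), E ζ| ≤ D := by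
    intro j
    rw [← Finset.sum_sub_distrib]
    refine (Finset.abs_sum_le_sum_abs _ _).trans ?_
    have h5 : ∑ ζ ∈ nthRootsFinset (u j) (1 : ℂ), |g ζ - E ζ|
        = ∑ ζ ∈ (nthRootsFinset (u j) (1 : ℂ)).filter (fun ζ => P.eval ζ = 0), |g ζ - E ζ| := by
      rw [Finset.sum_filter]
      refine sum_congr rfl fun ζ hζ => ?_
      split_ifs with h6
      · rfl
      · have hn : ‖ζ‖ = 1 := norm_eq_one_of_mem (hu0 j) hζ
        rw [hg ζ hn h6, log_eval h6]
        simp [hE]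
    rw [h5, hD]
    refine Finset.sum_le_sum_of_subset_of_nonneg ?_ fun _ _ _ => abs_nonneg _
    intro ζ hζ
    rw [Finset.mem_filter] at hζ
    rw [Multiset.mem_toFinset, mem_roots hP]
    exact hζ.2
  have h7 : Tendsto (fun j => (∑ ζ ∈ nthRootsFinset (u j) (1 : ℂ), g ζ) / (u j : ℝ)
      - (∑ ζ ∈ nthRootsFinset (u j) (1 : ℂ), E ζ) / (u j : ℝ)) atTop (𝓝 0) := by
    refine squeeze_zero_norm (fun j => ?_) (tendsto_const_div hu D)
    have hj : (0 : ℝ) < u j := by exact_mod_cast hu0 j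
    rw [← sub_div, Real.norm_eq_abs, abs_div, abs_of_pos hj]
    exact div_le_div_of_nonneg_right (h4 j) hj.le
  have h8 := h7.add h2
  rw [zero_add] at h8
  refine h8.congr fun j => ?_
  ring

end Pool.Agent.X175.Tor
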